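import Pool.Agent.Helper17.FP.Stmts

/-! MP_c38931_co, project FP, module RIV: the range `q > x sqrt L`. -/

open Finset

namespace Pool.Agent.Helper17.FP

open Pool.Agent.Helper17.SO Pool.Agent.Helper17.SV

theorem riv_step {t h : ℝ} (ht : 0 < t) (hh : 0 < h) :
    (t + h) ^ (-(5 / 4) : ℝ) ≤ 4 / h * (t ^ (-(1 / 4) : ℝ) - (t + h) ^ (-(1 / 4) : ℝ)) := by
  have hs : 0 < t + h := by linarith
  set s := t + h with hsd
  set u := h / s with hu
  have hu0 : 0 < u := div_pos hh hs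
  have hu1 : u < 1 := by rw [hu, div_lt_one hs]; linarith
  have e1 : t = s * (1 - u) := by rw [hu]; field_simp; linarith
  have hb : (1 + (-u)) ^ (1 / 4 : ℝ) ≤ 1 + (1 / 4) * (-u) :=
    rpow_one_add_le_one_add_mul_self (by linarith) (by norm_num) (by norm_num)
  have hpos : 0 < (1 + (-u)) ^ (1 / 4 : ℝ) := Real.rpow_pos_of_pos (by linarith) _
  have h2 : 1 + u / 4 ≤ (1 - u) ^ (-(1 / 4) : ℝ) := by
    rw [Real.rpow_neg (by linarith), show (1 : ℝ) - u = 1 + (-u) by ring]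
    rw [le_inv_comm₀ (by linarith) hpos]
    refine hb.trans ?_
    rw [← one_div, le_div_iff₀ (by linarith)]
    nlinarith
  have e2 : t ^ (-(1 / 4) : ℝ) = s ^ (-(1 / 4) : ℝ) * (1 - u) ^ (-(1 / 4) : ℝ) := by
    rw [← Real.mul_rpow hs.le (by linarith), ← e1]
  have e3 : s ^ (-(5 / 4) : ℝ) = s ^ (-(1 / 4) : ℝ) * s⁻¹ := by
    rw [← Real.rpow_neg_one s, ← Real.rpow_add hs]
    norm_num
  have hsp : 0 < s ^ (-(1 / 4) : ℝ) := Real.rpow_pos_of_pos hs _
  rw [e2, e3]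
  have e4 : s⁻¹ = 4 / h * (u / 4) := by
    rw [hu]; field_simp
  rw [e4]
  have h5 : 0 < 4 / h := by positivity
  calc s ^ (-(1 / 4) : ℝ) * (4 / h * (u / 4)) = 4 / h * (s ^ (-(1 / 4) : ℝ) * (u / 4)) := by ring
    _ ≤ 4 / h * (s ^ (-(1 / 4) : ℝ) * ((1 - u) ^ (-(1 / 4) : ℝ) - 1)) := by
        gcongr
        linarith
    _ = _ := by ring

theorem riv_sum1 {a h : ℝ} (ha : 0 < a) (hh : 0 < h) (J : ℕ) :
    ∑ j ∈ range J, (a + ((j : ℝ) + 1) * h) ^ (-(5 / 4) : ℝ) ≤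
      4 / h * (a ^ (-(1 / 4) : ℝ) - (a + J * h) ^ (-(1 / 4) : ℝ)) := by
  induction J with
  | zero => simp
  | succ J ih =>
    rw [sum_range_succ]
    have ht : 0 < a + J * h := by positivity
    have h1 := riv_step ht hh
    have e : a + ↑J * h + h = a + ((J : ℝ) + 1) * h := by ring
    rw [e] at h1
    push_cast
    linarith

theorem riv_sum {a h : ℝ} (ha : 0 < a) (hh : 0 < h) (J : ℕ) :
    ∑ j ∈ range (J + 1), (a + (j : ℝ) * h) ^ (-(5 / 4) : ℝ) ≤
      a ^ (-(5 / 4) : ℝ) + 4 / h * a ^ (-(1 / 4) : ℝ) := by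
  rw [sum_range_succ']
  have h1 := riv_sum1 ha hh J
  have h2 : 0 < (a + J * h) ^ (-(1 / 4) : ℝ) := Real.rpow_pos_of_pos (by positivity) _
  have h3 : 0 < 4 / h := by positivity
  have h4 : 4 / h * (a ^ (-(1 / 4) : ℝ) - (a + J * h) ^ (-(1 / 4) : ℝ)) ≤
      4 / h * a ^ (-(1 / 4) : ℝ) := by
    gcongr
    linarith
  push_cast
  simp only [zero_mul, add_zero]
  linarith

theorem st_RIV (hA : ST_BIVa) (hB : ST_BIVb) : ST_RIV := by
  classical
  intro lam hlam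
  obtain ⟨CA, hCA, hA⟩ := hA lam hlam
  obtain ⟨CB, hCB, hB⟩ := hB lam hlam
  refine ⟨5 * CA + 20 * CB, by positivity, ?_⟩
  intro x w hx hw S hS
  -- numerical facts
  set L := Real.log x with hL
  have hxR : (16 : ℝ) ≤ x := by exact_mod_cast hx
  have hx0 : (0 : ℝ) < x := by linarith
  have hLe : Real.exp 1 ≤ L := by
    have h1 : Real.log 16 ≤ L := Real.log_le_log (by norm_num) hxR
    have h2 : Real.log 16 = 4 * Real.log 2 := by
      rw [show (16 : ℝ) = 2 ^ (4 : ℕ) by norm_num, Real.log_pow]; norm_num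
    have h3 := Real.log_two_gt_d9
    have h4 := Real.exp_one_lt_d9
    linarith
  have hL1 : 1 ≤ L := by
    have := Real.add_one_le_exp (1 : ℝ)
    linarith
  have hL0 : 0 < L := by linarith
  have hLL : 1 ≤ Real.log L := by
    have := Real.log_le_log (Real.exp_pos 1) hLe
    rwa [Real.log_exp] at this
  set a := Real.log L / 2 with ha
  have ha0 : 1 / 2 ≤ a := by rw [ha]; linarith
  have ha1 : 0 < a := by linarith
  have hsq1 : 1 ≤ Real.sqrt L := by rw [Real.one_le_sqrt]; exact hL1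
  have hsq0 : 0 < Real.sqrt L := by linarith
  have hsqx : Real.sqrt L ≤ x := by
    have h1 : L ≤ x := by
      have := Real.log_le_sub_one_of_pos hx0
      linarith
    have h2 : Real.sqrt L ≤ L := by
      rw [Real.sqrt_le_left (by linarith)]
      nlinarith
    linarith
  set E := Real.exp (L ^ (9 / 10 : ℝ)) with hE
  set Y := ⌊(x : ℝ) / Real.sqrt L⌋₊ with hY
  have hY1 : (1 : ℝ) ≤ x / Real.sqrt L := by rwa [le_div_iff₀ hsq0, one_mul]
  have hYne : Y ≠ 0 := by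
    rw [hY]
    exact (Nat.floor_pos.2 hY1).ne'
  have hYle : (Y : ℝ) ≤ x / Real.sqrt L := Nat.floor_le (by linarith)
  set m := Nat.log 2 Y with hm
  have h2m : ((2 ^ m : ℕ) : ℝ) ≤ x / Real.sqrt L := by
    have : 2 ^ m ≤ Y := Nat.pow_log_le_self 2 hYne
    exact (by exact_mod_cast this : ((2 ^ m : ℕ) : ℝ) ≤ Y).trans hYle
  -- the sets
  let SA := S.filter fun k => ∃ q r : ℕ, ArithF lam q k ∧ x < q ∧
    lam * (q * r) + k = k * k + lam ∧ (r : ℝ) ≤ E
  let SB : ℕ → Finset ℕ := fun i => S.filter fun k => ∃ q r : ℕ, ArithF lam q k ∧ x < q ∧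
    lam * (q * r) + k = k * k + lam ∧ E < r ∧ 2 ^ i < r ∧ r ≤ 2 * 2 ^ i
  have hsub : S ⊆ SA ∪ (range (m + 1)).biUnion SB := by
    intro k hk
    obtain ⟨hkx, _, q, hq, hAr⟩ := hS k hk
    have hAr' := hAr
    obtain ⟨v, n, hkn, hn, hv, hvo, _, ⟨r, hr⟩, _⟩ := hAr'
    have hxq : x < q := by
      have : (x : ℝ) < q := lt_of_le_of_lt (by nlinarith) hq
      exact_mod_cast this
    rw [hr] at hv
    have hqr : q * r ≤ k * k := by
      have h1 : q * r ≤ lam * (q * r) := Nat.le_mul_of_pos_left _ hlam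
      omega
    have hrlt : (r : ℝ) ≤ x / Real.sqrt L := by
      rw [le_div_iff₀ hsq0]
      have h1 : (q : ℝ) * r ≤ x * x := by
        have h2 : q * r ≤ x * x := hqr.trans (Nat.mul_le_mul hkx hkx)
        exact_mod_cast h2
      have h3 : x * Real.sqrt L * r ≤ q * r := by
        gcongr
      have h4 : (x : ℝ) * (r * Real.sqrt L) ≤ x * x := by nlinarith
      exact le_of_mul_le_mul_left h4 hx0
    have hr1 : 1 ≤ r := by
      rcases Nat.eq_zero_or_pos r with h | h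
      · rw [h, mul_zero] at hr
        rw [hr] at hvo
        exact absurd hvo (by decide)
      · exact h
    rw [mem_union]
    by_cases hrE : (r : ℝ) ≤ E
    · left
      exact mem_filter.2 ⟨hk, q, r, hAr, hxq, hv, hrE⟩
    · right
      push Not at hrE
      have hE1 : 1 < E := by
        rw [hE, Real.one_lt_exp_iff]
        exact Real.rpow_pos_of_pos hL0 _
      have hr2 : 2 ≤ r := by
        have : (1 : ℝ) < r := hE1.trans hrE
        have : 1 < r := by exact_mod_cast this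
        omega
      set i := Nat.log 2 (r - 1) with hi
      have hi1 : 2 ^ i ≤ r - 1 := Nat.pow_log_le_self 2 (by omega)
      have hi2 : r - 1 < 2 ^ (i + 1) := Nat.lt_pow_succ_log_self (by norm_num) _
      have hi3 : i ≤ m := by
        rw [hm]
        apply Nat.le_log_of_pow_le (by norm_num)
        have : r ≤ Y := by
          rw [hY]; exact Nat.le_floor hrlt
        omega
      rw [mem_biUnion]
      refine ⟨i, mem_range.2 (by omega), mem_filter.2 ⟨hk, q, r, hAr, hxq, hv, hrE, by omega, ?_⟩⟩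
      rw [pow_succ] at hi2
      omega
  -- block A
  have hcA : (SA.card : ℝ) ≤ CA * x * L ^ (-(1 / 20) : ℝ) := by
    apply hA x w hx
    · refine hw.trans ?_
      calc L ^ (1 / 40 : ℝ) ≤ L ^ (1 : ℝ) := Real.rpow_le_rpow_of_exponent_le hL1 (by norm_num)
        _ = L := Real.rpow_one L
    · intro k hk
      obtain ⟨hkS, q, r, h1, h2, h3, h4⟩ := mem_filter.1 hk
      obtain ⟨h5, h6, _⟩ := hS k hkS
      exact ⟨h5, h6, q, r, h1, h2, h3, h4⟩
  -- block B
  have hcB : ∀ i ∈ range (m + 1), ((SB i).card : ℝ) ≤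
      CB * x * (a + ((m - i : ℕ) : ℝ) * Real.log 2) ^ (-(5 / 4) : ℝ) := by
    intro i hi
    rw [mem_range] at hi
    rcases (SB i).eq_empty_or_nonempty with h | ⟨k, hk⟩
    · rw [h]
      simp only [card_empty, Nat.cast_zero]
      have : 0 ≤ (a + ((m - i : ℕ) : ℝ) * Real.log 2) ^ (-(5 / 4) : ℝ) := by positivity
      positivity
    · have h2i : (0 : ℝ) < ((2 ^ i : ℕ) : ℝ) := by positivity
      have hR1 : E / 2 ≤ ((2 ^ i : ℕ) : ℝ) := by
        obtain ⟨_, q, r, _, _, _, h4, _, h6⟩ := mem_filter.1 hk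
        have : (r : ℝ) ≤ 2 * ((2 ^ i : ℕ) : ℝ) := by exact_mod_cast h6
        linarith
      have hR2 : ((2 ^ i : ℕ) : ℝ) ≤ x / Real.sqrt L := by
        have : 2 ^ i ≤ 2 ^ m := Nat.pow_le_pow_right (by norm_num) (by omega)
        exact (by exact_mod_cast this : ((2 ^ i : ℕ) : ℝ) ≤ ((2 ^ m : ℕ) : ℝ)).trans h2m
      have h1 := hB x (2 ^ i) w hx hw hR1 hR2 (SB i) (by
        intro k' hk'
        obtain ⟨hkS, q, r, h1, h2, h3, _, h4, h5⟩ := mem_filter.1 hk'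
        obtain ⟨h6, h7, _⟩ := hS k' hkS
        exact ⟨h6, h7, q, r, h1, h2, h3, h4, h5⟩)
      refine h1.trans ?_
      have hlog : a + ((m - i : ℕ) : ℝ) * Real.log 2 ≤ Real.log (x / ((2 ^ i : ℕ) : ℝ)) := by
        have e1 : (x : ℝ) / ((2 ^ i : ℕ) : ℝ) = x / ((2 ^ m : ℕ) : ℝ) * 2 ^ (m - i) := by
          have : (2 : ℝ) ^ m = 2 ^ i * 2 ^ (m - i) := by
            rw [← pow_add]; congr 1; omega
          push_cast
          rw [this]
          field_simp
        have h2mp : (0 : ℝ) < ((2 ^ m : ℕ) : ℝ) := by positivity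
        have h3 : Real.sqrt L ≤ x / ((2 ^ m : ℕ) : ℝ) := by
          rw [le_div_iff₀ h2mp, mul_comm]
          rwa [le_div_iff₀ hsq0] at h2m
        have h4 : a ≤ Real.log (x / ((2 ^ m : ℕ) : ℝ)) := by
          have := Real.log_le_log hsq0 h3
          rw [Real.log_sqrt hL0.le] at this
          exact this
        rw [e1, Real.log_mul (by positivity) (by positivity), Real.log_pow]
        linarith
      have hbase : 0 < a + ((m - i : ℕ) : ℝ) * Real.log 2 := by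
        have := Real.log_pos (by norm_num : (1 : ℝ) < 2)
        positivity
      have := Real.rpow_le_rpow_of_nonpos hbase hlog (by norm_num : (-(5 / 4) : ℝ) ≤ 0)
      gcongr
  -- the sum
  have hsum : ∑ i ∈ range (m + 1), (a + ((m - i : ℕ) : ℝ) * Real.log 2) ^ (-(5 / 4) : ℝ) ≤
      a ^ (-(5 / 4) : ℝ) + 4 / Real.log 2 * a ^ (-(1 / 4) : ℝ) := by
    have h1 := riv_sum ha1 (Real.log_pos (by norm_num : (1 : ℝ) < 2)) m
    rw [← sum_range_reflect] at h1
    refine le_trans (le_of_eq ?_) h1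
    refine sum_congr rfl fun i hi => ?_
    rw [mem_range] at hi
    congr 4
  have hlL : 0 < Real.log L := by linarith
  have hq1 : a ^ (-(1 / 4) : ℝ) ≤ 2 * (Real.log L) ^ (-(1 / 4) : ℝ) := by
    rw [ha, div_eq_mul_inv, Real.mul_rpow hlL.le (by norm_num), mul_comm]
    gcongr
    rw [Real.inv_rpow (by norm_num), ← Real.rpow_neg (by norm_num), neg_neg]
    calc (2 : ℝ) ^ (1 / 4 : ℝ) ≤ 2 ^ (1 : ℝ) :=
          Real.rpow_le_rpow_of_exponent_le (by norm_num) (by norm_num)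
      _ = 2 := Real.rpow_one 2
  have hq2 : a ^ (-(5 / 4) : ℝ) ≤ 2 * a ^ (-(1 / 4) : ℝ) := by
    have e : a ^ (-(5 / 4) : ℝ) = a⁻¹ * a ^ (-(1 / 4) : ℝ) := by
      rw [← Real.rpow_neg_one a, ← Real.rpow_add ha1]; norm_num
    rw [e]
    gcongr
    rw [inv_le_comm₀ ha1 (by norm_num)]
    linarith
  have hq3 : 4 / Real.log 2 ≤ 6 := by
    have := Real.log_two_gt_d9
    rw [div_le_iff₀ (by linarith)]
    linarith
  have hq4 : L ^ (-(1 / 20) : ℝ) ≤ 5 * (Real.log L) ^ (-(1 / 4) : ℝ) := by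
    have h1 : Real.log L ≤ 5 * L ^ (1 / 5 : ℝ) := by
      have := Real.log_le_rpow_div hL0.le (by norm_num : (0 : ℝ) < 1 / 5)
      calc Real.log L ≤ L ^ (1 / 5 : ℝ) / (1 / 5) := this
        _ = _ := by ring
    have h2 : (5 * L ^ (1 / 5 : ℝ)) ^ (-(1 / 4) : ℝ) ≤ (Real.log L) ^ (-(1 / 4) : ℝ) :=
      Real.rpow_le_rpow_of_nonpos hlL h1 (by norm_num)
    have h3 : (5 * L ^ (1 / 5 : ℝ)) ^ (-(1 / 4) : ℝ) = 5 ^ (-(1 / 4) : ℝ) * L ^ (-(1 / 20) : ℝ) := by
      rw [Real.mul_rpow (by norm_num) (by positivity), ← Real.rpow_mul hL0.le]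
      norm_num
    have h4 : (1 : ℝ) ≤ 5 * 5 ^ (-(1 / 4) : ℝ) := by
      have : (5 : ℝ) * 5 ^ (-(1 / 4) : ℝ) = 5 ^ (3 / 4 : ℝ) := by
        nth_rewrite 1 [← Real.rpow_one (5 : ℝ)]
        rw [← Real.rpow_add (by norm_num)]
        norm_num
      rw [this]
      exact Real.one_le_rpow (by norm_num) (by norm_num)
    have h5 : 0 < L ^ (-(1 / 20) : ℝ) := Real.rpow_pos_of_pos hL0 _
    calc L ^ (-(1 / 20) : ℝ) ≤ (5 * 5 ^ (-(1 / 4) : ℝ)) * L ^ (-(1 / 20) : ℝ) := by nlinarith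
      _ = 5 * (5 * L ^ (1 / 5 : ℝ)) ^ (-(1 / 4) : ℝ) := by rw [h3]; ring
      _ ≤ _ := by gcongr
  -- conclusion
  have hcard : (S.card : ℝ) ≤ SA.card + ∑ i ∈ range (m + 1), ((SB i).card : ℝ) := by
    have h1 := (card_le_card hsub).trans (card_union_le _ _)
    have h2 : ((range (m + 1)).biUnion SB).card ≤ ∑ i ∈ range (m + 1), (SB i).card :=
      card_biUnion_le
    have h3 : S.card ≤ SA.card + ∑ i ∈ range (m + 1), (SB i).card := h1.trans (by omega)
    exact_mod_cast h3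
  have hBs : ∑ i ∈ range (m + 1), ((SB i).card : ℝ) ≤ CB * x *
      (a ^ (-(5 / 4) : ℝ) + 4 / Real.log 2 * a ^ (-(1 / 4) : ℝ)) := by
    refine (sum_le_sum hcB).trans ?_
    rw [← mul_sum]
    gcongr
  have hTp : 0 < (Real.log L) ^ (-(1 / 4) : ℝ) := Real.rpow_pos_of_pos hlL _
  have hap : 0 < a ^ (-(1 / 4) : ℝ) := Real.rpow_pos_of_pos ha1 _
  have hfin : a ^ (-(5 / 4) : ℝ) + 4 / Real.log 2 * a ^ (-(1 / 4) : ℝ) ≤
      20 * (Real.log L) ^ (-(1 / 4) : ℝ) := by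
    have h1 : 4 / Real.log 2 * a ^ (-(1 / 4) : ℝ) ≤ 6 * a ^ (-(1 / 4) : ℝ) := by gcongr
    nlinarith
  have h6 : CA * x * L ^ (-(1 / 20) : ℝ) ≤ CA * x * (5 * (Real.log L) ^ (-(1 / 4) : ℝ)) := by
    gcongr
  have h7 : CB * x * (a ^ (-(5 / 4) : ℝ) + 4 / Real.log 2 * a ^ (-(1 / 4) : ℝ)) ≤
      CB * x * (20 * (Real.log L) ^ (-(1 / 4) : ℝ)) := by
    gcongr
  calc (S.card : ℝ) ≤ CA * x * (5 * (Real.log L) ^ (-(1 / 4) : ℝ)) +
        CB * x * (20 * (Real.log L) ^ (-(1 / 4) : ℝ)) := by linarith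
    _ = _ := by ring

end Pool.Agent.Helper17.FP
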