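import Pool.Agent.Helper17.FP.Stmts2

/-! MP_c38931_co, project FP, module TRQ: transitive groups of degree less than `q ^ 2`. -/

open Finset

namespace Pool.Agent.Helper17.FP

open Pool.Agent.Helper17.SO Pool.Agent.Helper17.SV

theorem st_TRQ (hPL : ST_PL) : ST_TRQ := by
  classical
  intro v q G hq hqv hvq hodd htr
  have : Fact q.Prime := ⟨hq⟩
  have hv0 : 0 < v := hodd.pos
  have hq2 : q ≠ 2 := by
    rintro rfl
    exact (Nat.not_even_iff_odd.2 hodd) (even_iff_two_dvd.2 hqv)
  let P₀ : Sylow q G := default
  set P : Subgroup (Equiv.Perm (Fin v)) := (P₀ : Subgroup G).map G.subtype with hP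
  have hPG : ∀ g ∈ P, g ∈ G := by
    intro g hg
    obtain ⟨h, _, rfl⟩ := Subgroup.mem_map.1 hg
    exact h.2
  have hpow : ∀ g ∈ P, ∃ r, g ^ q ^ r = 1 := by
    intro g hg
    obtain ⟨h, hh, rfl⟩ := Subgroup.mem_map.1 hg
    obtain ⟨r, hr⟩ := P₀.isPGroup' ⟨h, hh⟩
    refine ⟨r, ?_⟩
    have h2 : h ^ q ^ r = 1 := by
      have := congrArg Subtype.val hr
      simpa using this
    have := congrArg G.subtype h2
    simpa using this
  have hpP : IsPGroup q P := by
    intro g
    obtain ⟨r, hr⟩ := hpow g.1 g.2
    exact ⟨r, Subtype.ext (by simpa using hr)⟩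
  have horb : ∀ x : Fin v, orb P x = Nat.card (MulAction.orbit P x) := by
    intro x
    unfold orb
    apply Nat.card_congr
    refine Equiv.subtypeEquivRight fun y => ?_
    rw [MulAction.mem_orbit_iff]
    constructor
    · rintro ⟨g, hg, h⟩
      exact ⟨⟨g, hg⟩, h⟩
    · rintro ⟨g, h⟩
      exact ⟨g.1, g.2, h⟩
  have hone : ∀ x : Fin v, orb P x = q := by
    intro x
    obtain ⟨n, hn⟩ := hpP.card_orbit x
    rw [← horb] at hn
    have hle : orb P x ≤ v := by
      rw [horb]
      have := Nat.card_le_card_of_injective (Subtype.val : MulAction.orbit P x → Fin v)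
        Subtype.val_injective
      simpa using this
    have hn2 : n < 2 := by
      have : q ^ n < q ^ 2 := by rw [← hn]; omega
      exact (Nat.pow_lt_pow_iff_right hq.one_lt).1 this
    have hn0 : n ≠ 0 := by
      rintro rfl
      rw [pow_zero, horb] at hn
      have hfix : ∀ g ∈ P, g x = x := by
        intro g hg
        have hs := (Nat.card_eq_one_iff_unique.1 hn).1
        have := hs.elim (⟨g x, ⟨⟨g, hg⟩, rfl⟩⟩ : MulAction.orbit P x)
          ⟨x, MulAction.mem_orbit_self x⟩
        exact congrArg Subtype.val this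
      have hle : (P₀ : Subgroup G) ≤ MulAction.stabilizer G x := by
        intro h hh
        rw [MulAction.mem_stabilizer_iff]
        exact hfix h.1 (Subgroup.mem_map.2 ⟨h, hh, rfl⟩)
      have hidx : (MulAction.stabilizer G x).index = v := by
        rw [MulAction.index_stabilizer]
        have : MulAction.orbit G x = Set.univ := by
          ext y
          simp only [Set.mem_univ, iff_true]
          obtain ⟨g, hg, h⟩ := htr x y
          exact ⟨⟨g, hg⟩, h⟩
        rw [this, Set.ncard_univ]
        simp
      have h1 : v ∣ (P₀ : Subgroup G).index := by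
        have h2 := Subgroup.index_dvd_of_le hle
        rwa [hidx] at h2
      exact P₀.not_dvd_index (hqv.trans h1)
    have : n = 1 := by omega
    rw [hn, this, pow_one]
  by_contra hcon
  push Not at hcon
  have hall : ∀ g ∈ P, Odd (nfix g) := by
    intro g hg
    by_contra h
    rw [Nat.not_odd_iff_even] at h
    obtain ⟨r, hr⟩ := hpow g hg
    exact hcon g (hPG g hg) ⟨r, hr⟩ h
  have hev := hPL (Fin v) P q hq hq2 hpow hall
  have hsum : ∑ x : Fin v, padicValNat q (orb P x) = v := by
    rw [Finset.sum_congr rfl fun x _ => by rw [hone x]]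
    simp
  rw [hsum] at hev
  exact (Nat.not_even_iff_odd.2 hodd) hev

end Pool.Agent.Helper17.FP
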