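import Pool.Agent.Helper44.FP.Stmts
import Pool.Agent.Helper44.FP.Lib

/-!
# Module VARB: averaging of the second variation inequality
-/

namespace Pool.Agent.Helper81.FP

open Pool.Agent.Helper44.FP
open scoped Topology

universe u

section noorder

variable {A : Type u} [CStarAlgebra A]

theorem varb_pair (P Q a b : A) :
    P * (a + b) * Q * (a + b) + P * (Complex.I • (a - b)) * Q * (Complex.I • (a - b)) =
      (2 : ℝ) • (P * a * Q * b + P * b * Q * a) := by
  have h1 : P * (Complex.I • (a - b)) * Q * (Complex.I • (a - b)) =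
      - (P * (a - b) * Q * (a - b)) := by
    simp only [mul_smul_comm, smul_mul_assoc, smul_smul, Complex.I_mul_I, neg_smul, one_smul]
  rw [h1, two_smul]
  noncomm_ring

theorem varb_pair' (T a b : A) :
    T * ((a + b) * (a + b)) + T * ((Complex.I • (a - b)) * (Complex.I • (a - b))) =
      (2 : ℝ) • (T * (a * b) + T * (b * a)) := by
  have h1 : T * ((Complex.I • (a - b)) * (Complex.I • (a - b))) =
      - (T * ((a - b) * (a - b))) := by
    simp only [mul_smul_comm, smul_mul_assoc, smul_smul, Complex.I_mul_I, neg_smul, one_smul,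
      mul_neg]
  rw [h1, two_smul]
  noncomm_ring

/-- the inequality for one unitary `w` -/
theorem varb_one [Nontrivial A] {t : A → ℝ} (ht : IsTr t) {J : ℕ} (P Q : Fin J → A) (κ : ℝ)
    (hVA : ∀ h : A, IsSelfAdjoint h → ‖h‖ ≤ 2 →
      ∑ j, (2 * t (P j * h * Q j * h) - t ((P j * Q j + Q j * P j) * (h * h))) ≤ κ)
    (X Y w : A) (hX : IsSelfAdjoint X) (hY : IsSelfAdjoint Y) (hXn : ‖X‖ ≤ 1) (hYn : ‖Y‖ ≤ 1)
    (hw : w ∈ unitary A) :
    ∑ j, (2 * (t (w * (Y * Q j * Y) * star w * (X * P j * X)) +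
      t (w * (Y * P j * Y) * star w * (X * Q j * X))) -
      t (w * (Y * Y) * star w * (X * (P j * Q j + Q j * P j) * X)) -
      t (w * (Y * (P j * Q j + Q j * P j) * Y) * star w * (X * X))) ≤ κ := by
  set a := X * w * Y with ha
  have hsa : star a = Y * star w * X := by
    rw [ha, star_mul, star_mul, hX.star_eq, hY.star_eq, mul_assoc]
  have hwn : ‖w‖ = 1 := CStarRing.norm_of_mem_unitary hw
  have han : ‖a‖ ≤ 1 := by
    rw [ha]
    refine (norm_mul_le _ _).trans ?_
    have h1 : ‖X * w‖ ≤ 1 := (norm_mul_le _ _).trans (by rw [hwn, mul_one]; exact hXn)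
    have := norm_nonneg Y
    nlinarith [norm_nonneg (X * w)]
  have hsan : ‖star a‖ ≤ 1 := by rw [norm_star]; exact han
  have h1sa : IsSelfAdjoint (a + star a) := IsSelfAdjoint.add_star_self a
  have h2sa : IsSelfAdjoint (Complex.I • (a - star a)) := by
    rw [IsSelfAdjoint, star_smul, star_sub, star_star, Complex.star_def, Complex.conj_I,
      neg_smul, ← smul_neg, neg_sub]
  have h1n : ‖a + star a‖ ≤ 2 := (norm_add_le _ _).trans (by linarith)
  have h2n : ‖Complex.I • (a - star a)‖ ≤ 2 := by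
    rw [norm_smul, Complex.norm_I, one_mul]
    exact (norm_sub_le _ _).trans (by linarith)
  have i1 := hVA _ h1sa h1n
  have i2 := hVA _ h2sa h2n
  have hsum : (∑ j, (2 * t (P j * (a + star a) * Q j * (a + star a)) -
      t ((P j * Q j + Q j * P j) * ((a + star a) * (a + star a))))) +
      (∑ j, (2 * t (P j * (Complex.I • (a - star a)) * Q j * (Complex.I • (a - star a))) -
      t ((P j * Q j + Q j * P j) * ((Complex.I • (a - star a)) * (Complex.I • (a - star a)))))) =
      2 * ∑ j, (2 * (t (w * (Y * Q j * Y) * star w * (X * P j * X)) +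
      t (w * (Y * P j * Y) * star w * (X * Q j * X))) -
      t (w * (Y * Y) * star w * (X * (P j * Q j + Q j * P j) * X)) -
      t (w * (Y * (P j * Q j + Q j * P j) * Y) * star w * (X * X))) := by
    rw [← Finset.sum_add_distrib, Finset.mul_sum]
    refine Finset.sum_congr rfl fun j _ => ?_
    generalize hT : P j * Q j + Q j * P j = T
    have e1 := congrArg t (varb_pair (P j) (Q j) a (star a))
    have e2 := congrArg t (varb_pair' T a (star a))
    rw [ht.add, ht.smul, ht.add] at e1 e2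
    have f1 : t (P j * a * Q j * star a) = t (w * (Y * Q j * Y) * star w * (X * P j * X)) := by
      have : P j * a * Q j * star a = (P j * X) * (w * (Y * Q j * Y) * star w * X) := by
        rw [hsa, ha]; simp only [mul_assoc]
      rw [this, ht.comm]
      simp only [mul_assoc]
    have f2 : t (P j * star a * Q j * a) = t (w * (Y * P j * Y) * star w * (X * Q j * X)) := by
      have : P j * star a * Q j * a = (P j * Y * star w * (X * Q j * X)) * (w * Y) := by
        rw [hsa, ha]; simp only [mul_assoc]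
      rw [this, ht.comm]
      simp only [mul_assoc]
    have f3 : t (T * (a * star a)) = t (w * (Y * Y) * star w * (X * T * X)) := by
      have : T * (a * star a) = (T * X) * (w * (Y * Y) * star w * X) := by
        rw [hsa, ha]; simp only [mul_assoc]
      rw [this, ht.comm]
      simp only [mul_assoc]
    have f4 : t (T * (star a * a)) = t (w * (Y * T * Y) * star w * (X * X)) := by
      have : T * (star a * a) = (T * Y * star w * (X * X)) * (w * Y) := by
        rw [hsa, ha]; simp only [mul_assoc]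
      rw [this, ht.comm]
      simp only [mul_assoc]
    rw [f1, f2] at e1
    rw [f3, f4] at e2
    linarith
  linarith

end noorder

variable {A : Type u} [CStarAlgebra A] [PartialOrder A] [StarOrderedRing A]

theorem varb_sqrt (a : A) (h0 : 0 ≤ a) (h1 : a ≤ 1) :
    ∃ x : A, IsSelfAdjoint x ∧ x * x = a ∧ ‖x‖ ≤ 1 := by
  have hs : IsSelfAdjoint (CFC.sqrt a) := (CFC.sqrt_nonneg a).isSelfAdjoint
  have hm : CFC.sqrt a * CFC.sqrt a = a := CFC.sqrt_mul_sqrt_self a h0
  refine ⟨CFC.sqrt a, hs, hm, ?_⟩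
  have h2 : ‖CFC.sqrt a‖ * ‖CFC.sqrt a‖ ≤ 1 := by
    have h3 := CStarRing.norm_star_mul_self (x := CFC.sqrt a)
    rw [hs.star_eq, hm] at h3
    rw [← h3, CStarAlgebra.norm_le_one_iff_of_nonneg a h0]
    exact h1
  nlinarith [norm_nonneg (CFC.sqrt a)]

theorem varb_sq_le (a : A) (h0 : 0 ≤ a) (h1 : a ≤ 1) : 0 ≤ a - a * a := by
  obtain ⟨x, hx, hxa, -⟩ := varb_sqrt a h0 h1
  have h2 := star_left_conjugate_nonneg (sub_nonneg.mpr h1) x
  rw [hx.star_eq] at h2
  have h3 : x * (1 - a) * x = a - a * a := by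
    rw [mul_sub, sub_mul, mul_one, hxa, ← hxa]
    simp only [mul_assoc]
  rwa [h3] at h2

theorem VARB_aux (hVARA : ST_VARA.{u}) : ST_VARB.{u} := by
  intro A _ _ _ t ht hMix J P Q hP hQ hPP hQQ κ hκ
  have hnt : Nontrivial A := by
    by_contra h
    rw [not_nontrivial_iff_subsingleton] at h
    have h1 := ht.one
    rw [Subsingleton.elim (1 : A) 0, ht.zero] at h1
    exact zero_ne_one h1
  obtain ⟨u, hu, hVA⟩ := hVARA A t ht J P Q hP hQ κ hκ
  have huu : star u * u = 1 := Unitary.star_mul_self_of_mem hu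
  have huu' : u * star u = 1 := Unitary.mul_star_self_of_mem hu
  obtain ⟨P', hP'⟩ : ∃ P' : Fin J → A, ∀ j, P' j = u * P j * star u :=
    ⟨fun j => u * P j * star u, fun _ => rfl⟩
  have hVA' : ∀ h : A, IsSelfAdjoint h → ‖h‖ ≤ 2 →
      ∑ j, (2 * t (P' j * h * Q j * h) - t ((P' j * Q j + Q j * P' j) * (h * h))) ≤ κ := by
    intro h h1 h2
    simp only [hP']
    exact hVA h h1 h2
  have hP'0 : ∀ j, 0 ≤ P' j := by
    intro j
    have h1 := star_left_conjugate_nonneg (hP j).1 (star u)
    rw [hP' j]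
    rwa [star_star] at h1
  have hP'1 : ∀ j, P' j ≤ 1 := by
    intro j
    have h1 := star_left_conjugate_nonneg (sub_nonneg.mpr (hP j).2) (star u)
    rw [star_star, mul_sub, sub_mul, mul_one, huu', ← hP' j] at h1
    exact sub_nonneg.mp h1
  have hP'P' : ∀ i j, P' i * P' j = u * (P i * P j) * star u := by
    intro i j
    rw [hP' i, hP' j]
    calc u * P i * star u * (u * P j * star u) = u * P i * (star u * u) * P j * star u := by
          simp only [mul_assoc]
      _ = _ := by rw [huu, mul_one]; simp only [mul_assoc]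
  refine ⟨u, hu, fun i => ?_⟩
  obtain ⟨X, hX, hXX, hXn⟩ := varb_sqrt (Q i) (hQ i).1 (hQ i).2
  obtain ⟨Y, hY, hYY, hYn⟩ := varb_sqrt (P' i) (hP'0 i) (hP'1 i)
  let T : Fin J → A := fun j => P' j * Q j + Q j * P' j
  -- the finite set
  have hsand : ∀ x b : A, IsSelfAdjoint x → IsSelfAdjoint b → IsSelfAdjoint (x * b * x) := by
    intro x b hx hb
    rw [IsSelfAdjoint, star_mul, star_mul, hx.star_eq, hb.star_eq, mul_assoc]
  have hQsa : ∀ j, IsSelfAdjoint (Q j) := fun j => (hQ j).1.isSelfAdjoint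
  have hPsa : ∀ j, IsSelfAdjoint (P' j) := fun j => (hP'0 j).isSelfAdjoint
  have hTsa : ∀ j, IsSelfAdjoint (T j) := by
    intro j
    show star (P' j * Q j + Q j * P' j) = P' j * Q j + Q j * P' j
    rw [star_add, star_mul, star_mul, (hQsa j).star_eq, (hPsa j).star_eq, add_comm]
  classical
  let S : Finset A := Finset.univ.image (fun j => Y * Q j * Y) ∪
    Finset.univ.image (fun j => X * P' j * X) ∪ Finset.univ.image (fun j => Y * P' j * Y) ∪
    Finset.univ.image (fun j => X * Q j * X) ∪ Finset.univ.image (fun j => X * T j * X) ∪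
    Finset.univ.image (fun j => Y * T j * Y) ∪ {Y * Y, X * X}
  have hS : ∀ x ∈ S, IsSelfAdjoint x := by
    intro x hx
    simp only [S, Finset.mem_union, Finset.mem_image, Finset.mem_univ, true_and,
      Finset.mem_insert, Finset.mem_singleton] at hx
    rcases hx with (((((⟨j, rfl⟩ | ⟨j, rfl⟩) | ⟨j, rfl⟩) | ⟨j, rfl⟩) | ⟨j, rfl⟩) | ⟨j, rfl⟩) |
      rfl | rfl
    · exact hsand _ _ hY (hQsa j)
    · exact hsand _ _ hX (hPsa j)
    · exact hsand _ _ hY (hPsa j)
    · exact hsand _ _ hX (hQsa j)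
    · exact hsand _ _ hX (hTsa j)
    · exact hsand _ _ hY (hTsa j)
    · rw [hYY]; exact hPsa i
    · rw [hXX]; exact hQsa i
  have m1 : ∀ j, Y * Q j * Y ∈ S := fun j => by simp [S]
  have m2 : ∀ j, X * P' j * X ∈ S := fun j => by simp [S]
  have m3 : ∀ j, Y * P' j * Y ∈ S := fun j => by simp [S]
  have m4 : ∀ j, X * Q j * X ∈ S := fun j => by simp [S]
  have m5 : ∀ j, X * T j * X ∈ S := fun j => by simp [S]
  have m6 : ∀ j, Y * T j * Y ∈ S := fun j => by simp [S]
  have m7 : Y * Y ∈ S := by simp [S]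
  have m8 : X * X ∈ S := by simp [S]
  have hκ2 : 0 < κ / (6 * ((J : ℝ) + 1)) := by positivity
  obtain ⟨n, w, l, hw, hl0, hl1, hmix⟩ := hMix S hS _ hκ2
  have hone := fun r => varb_one ht P' Q κ hVA' X Y (w r) hX hY hXn hYn (hw r)
  have havg : ∑ j, (2 * (∑ r, l r * t (w r * (Y * Q j * Y) * star (w r) * (X * P' j * X)) +
      ∑ r, l r * t (w r * (Y * P' j * Y) * star (w r) * (X * Q j * X))) -
      ∑ r, l r * t (w r * (Y * Y) * star (w r) * (X * T j * X)) -
      ∑ r, l r * t (w r * (Y * T j * Y) * star (w r) * (X * X))) ≤ κ := by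
    have h1 : ∑ r, l r * (∑ j, (2 * (t (w r * (Y * Q j * Y) * star (w r) * (X * P' j * X)) +
      t (w r * (Y * P' j * Y) * star (w r) * (X * Q j * X))) -
      t (w r * (Y * Y) * star (w r) * (X * T j * X)) -
      t (w r * (Y * T j * Y) * star (w r) * (X * X)))) ≤ ∑ r, l r * κ :=
      Finset.sum_le_sum fun r _ => mul_le_mul_of_nonneg_left (hone r) (hl0 r)
    rw [← Finset.sum_mul, hl1, one_mul] at h1
    refine le_trans (le_of_eq ?_) h1
    simp only [Finset.mul_sum]
    rw [Finset.sum_comm]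
    refine Finset.sum_congr rfl fun j _ => ?_
    rw [← Finset.sum_add_distrib, Finset.mul_sum, ← Finset.sum_sub_distrib,
      ← Finset.sum_sub_distrib]
    refine Finset.sum_congr rfl fun r _ => ?_
    ring
  have hprod : ∑ j, (2 * (t (Y * Q j * Y) * t (X * P' j * X) +
      t (Y * P' j * Y) * t (X * Q j * X)) - t (Y * Y) * t (X * T j * X) -
      t (Y * T j * Y) * t (X * X)) ≤ 2 * κ := by
    have h1 : ∀ j, (2 * (t (Y * Q j * Y) * t (X * P' j * X) +
      t (Y * P' j * Y) * t (X * Q j * X)) - t (Y * Y) * t (X * T j * X) -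
      t (Y * T j * Y) * t (X * X)) ≤
      (2 * (∑ r, l r * t (w r * (Y * Q j * Y) * star (w r) * (X * P' j * X)) +
      ∑ r, l r * t (w r * (Y * P' j * Y) * star (w r) * (X * Q j * X))) -
      ∑ r, l r * t (w r * (Y * Y) * star (w r) * (X * T j * X)) -
      ∑ r, l r * t (w r * (Y * T j * Y) * star (w r) * (X * X))) +
        6 * (κ / (6 * ((J : ℝ) + 1))) := by
      intro j
      have a1 := abs_le.mp (hmix _ (m1 j) _ (m2 j))
      have a2 := abs_le.mp (hmix _ (m3 j) _ (m4 j))
      have a3 := abs_le.mp (hmix _ m7 _ (m5 j))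
      have a4 := abs_le.mp (hmix _ (m6 j) _ m8)
      linarith
    refine (Finset.sum_le_sum fun j _ => h1 j).trans ?_
    rw [Finset.sum_add_distrib, Finset.sum_const, Finset.card_univ, Fintype.card_fin,
      nsmul_eq_mul]
    have h2 : (J : ℝ) * (6 * (κ / (6 * ((J : ℝ) + 1)))) ≤ κ := by
      have hJ : (0 : ℝ) ≤ J := Nat.cast_nonneg J
      have h3 : (J : ℝ) * (6 * (κ / (6 * ((J : ℝ) + 1)))) = J * κ / ((J : ℝ) + 1) := by
        field_simp
      rw [h3, div_le_iff₀ (by positivity)]
      nlinarith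
    linarith
  -- evaluation
  have hYBY : ∀ B : A, t (Y * B * Y) = t (P' i * B) := by
    intro B
    rw [ht.comm, ← mul_assoc, hYY]
  have hXBX : ∀ B : A, t (X * B * X) = t (Q i * B) := by
    intro B
    rw [ht.comm, ← mul_assoc, hXX]
  set c : Fin J → ℝ := fun j => (2 * (t (Y * Q j * Y) * t (X * P' j * X) +
      t (Y * P' j * Y) * t (X * Q j * X)) - t (Y * Y) * t (X * T j * X) -
      t (Y * T j * Y) * t (X * X)) with hc
  have hQT : ∀ j, t (Q i * T j) = t (P' j * (Q j * Q i)) + t (P' j * (Q i * Q j)) := by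
    intro j
    show t (Q i * (P' j * Q j + Q j * P' j)) = _
    rw [mul_add, ht.add]
    congr 1
    · rw [ht.comm, mul_assoc]
    · rw [← mul_assoc, ht.comm]
  have hPT : ∀ j, t (P' i * T j) = t ((P' i * P' j) * Q j) + t ((P' j * P' i) * Q j) := by
    intro j
    show t (P' i * (P' j * Q j + Q j * P' j)) = _
    rw [mul_add, ht.add]
    congr 1
    · rw [mul_assoc]
    · rw [← mul_assoc, ht.comm, mul_assoc]
  have hnonneg : ∀ j, j ≠ i → 0 ≤ c j := by
    intro j hj
    have z1 : t (Y * P' j * Y) = 0 := by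
      rw [hYBY, hP'P', hPP i j hj.symm, mul_zero, zero_mul, ht.zero]
    have z2 : t (X * T j * X) = 0 := by
      rw [hXBX, hQT, hQQ j i hj, hQQ i j hj.symm, mul_zero, ht.zero, add_zero]
    have z3 : t (Y * T j * Y) = 0 := by
      rw [hYBY, hPT, hP'P', hP'P', hPP i j hj.symm, hPP j i hj]
      simp [ht.zero]
    have z4 : 0 ≤ t (Y * Q j * Y) := by rw [hYBY]; exact ht.mul_pos (hP'0 i) (hQ j).1
    have z5 : 0 ≤ t (X * P' j * X) := by rw [hXBX]; exact ht.mul_pos (hQ i).1 (hP'0 j)
    show 0 ≤ 2 * (t (Y * Q j * Y) * t (X * P' j * X) +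
      t (Y * P' j * Y) * t (X * Q j * X)) - t (Y * Y) * t (X * T j * X) -
      t (Y * T j * Y) * t (X * X)
    rw [z1, z2, z3]
    have := mul_nonneg z4 z5
    linarith
  have hci : 2 * (t (u * P i * star u * Q i) ^ 2 + t (P i * P i) * t (Q i * Q i) -
      t (u * P i * star u * Q i) * (t (P i) + t (Q i))) ≤ c i := by
    have z1 : t (Y * Q i * Y) = t (u * P i * star u * Q i) := by rw [hYBY, hP']
    have z2 : t (X * P' i * X) = t (u * P i * star u * Q i) := by
      rw [hXBX, ht.comm, hP']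
    have z3 : t (Y * P' i * Y) = t (P i * P i) := by
      rw [hYBY, hP'P', ht.unitary_conj hu]
    have z4 : t (X * Q i * X) = t (Q i * Q i) := hXBX _
    have z5 : t (Y * Y) = t (P i) := by
      rw [hYY, hP']; exact ht.unitary_conj hu _
    have z6 : t (X * X) = t (Q i) := by rw [hXX]
    have z7 : t (X * T i * X) ≤ 2 * t (u * P i * star u * Q i) := by
      rw [hXBX, hQT]
      have h1 := ht.mul_pos (hP'0 i) (varb_sq_le (Q i) (hQ i).1 (hQ i).2)
      rw [mul_sub, ht.sub] at h1
      have h2 : t (P' i * Q i) = t (u * P i * star u * Q i) := by rw [hP']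
      linarith
    have z8 : t (Y * T i * Y) ≤ 2 * t (u * P i * star u * Q i) := by
      rw [hYBY, hPT]
      have h1 := ht.mul_pos (varb_sq_le (P' i) (hP'0 i) (hP'1 i)) (hQ i).1
      rw [sub_mul, ht.sub] at h1
      have h2 : t (P' i * Q i) = t (u * P i * star u * Q i) := by rw [hP']
      linarith
    have z9 : 0 ≤ t (P i) := ht.pos_of_nonneg (hP i).1
    have z10 : 0 ≤ t (Q i) := ht.pos_of_nonneg (hQ i).1
    show _ ≤ 2 * (t (Y * Q i * Y) * t (X * P' i * X) +
      t (Y * P' i * Y) * t (X * Q i * X)) - t (Y * Y) * t (X * T i * X) -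
      t (Y * T i * Y) * t (X * X)
    rw [z1, z2, z3, z4, z5, z6]
    have h1 := mul_le_mul_of_nonneg_left z7 z9
    have h2 := mul_le_mul_of_nonneg_right z8 z10
    nlinarith
  have hsingle : c i ≤ ∑ j, c j := by
    rw [← Finset.add_sum_erase _ _ (Finset.mem_univ i)]
    have : 0 ≤ ∑ j ∈ Finset.univ.erase i, c j :=
      Finset.sum_nonneg fun j hj => hnonneg j (Finset.ne_of_mem_erase hj)
    linarith
  linarith

end Pool.Agent.Helper81.FP
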