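import Pool.Agent.Helper44.FP.Stmts
import Pool.Agent.Helper44.FP.Lib

/-!
# Module VARA: the second variation inequality at an almost maximal point
-/

namespace Pool.Agent.Helper81.FP

open Pool.Agent.Helper44.FP
open scoped Topology

universe u

variable {A : Type u} [CStarAlgebra A] [PartialOrder A] [StarOrderedRing A]

omit [PartialOrder A] [StarOrderedRing A] in
theorem vara_nontrivial {t : A → ℝ} (ht : IsTr t) : Nontrivial A := by
  by_contra h
  rw [not_nontrivial_iff_subsingleton] at h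
  have h1 := ht.one
  rw [Subsingleton.elim (1 : A) 0, ht.zero] at h1
  exact zero_ne_one h1

omit [PartialOrder A] [StarOrderedRing A] in
/-- the cosine of a small self-adjoint element -/
theorem vara_cos [Nontrivial A] (k : A) (hk : IsSelfAdjoint k) (ρ : ℝ) (hρ1 : ρ ≤ 1)
    (hkn : ‖k‖ ≤ ρ) :
    ∃ c : A, IsSelfAdjoint c ∧ Commute c k ∧ c * c + k * k = 1 ∧
      ‖1 - c - (1 / 2 : ℝ) • (k * k)‖ ≤ ρ ^ 4 := by
  have hspec : ∀ x ∈ spectrum ℝ k, |x| ≤ ρ := by
    intro x hx
    have h1 := spectrum.norm_le_norm_of_mem hx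
    rw [Real.norm_eq_abs] at h1
    exact h1.trans hkn
  have hρ0 : 0 ≤ ρ := (norm_nonneg k).trans hkn
  let f : ℝ → ℝ := fun x => √(1 - x ^ 2)
  have hf : Continuous f := by fun_prop
  have hc : IsSelfAdjoint (cfc f k) := cfc_predicate f k
  have hkk : cfc (fun x : ℝ => x ^ 2) k = k * k := by
    have h1 := cfc_pow_id (R := ℝ) k 2
    rw [h1, sq]
  refine ⟨cfc f k, hc, ?_, ?_, ?_⟩
  · have h1 := cfc_commute_cfc f (id : ℝ → ℝ) k
    rwa [cfc_id ℝ k] at h1
  · rw [← cfc_mul f f k hf.continuousOn hf.continuousOn, ← hkk,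
      ← cfc_add k (fun x => f x * f x) (fun x : ℝ => x ^ 2) (by fun_prop) (by fun_prop),
      ← cfc_one ℝ k]
    apply cfc_congr
    intro x hx
    have h1 := hspec x hx
    have h2 : 0 ≤ 1 - x ^ 2 := by
      have : x ^ 2 ≤ 1 := by
        rw [← sq_abs]
        have := abs_nonneg x
        nlinarith
      linarith
    show √(1 - x ^ 2) * √(1 - x ^ 2) + x ^ 2 = 1
    rw [Real.mul_self_sqrt h2]
    ring
  · have h1 : 1 - cfc f k - (1 / 2 : ℝ) • (k * k) =
        cfc (fun x : ℝ => 1 - f x - (1 / 2) * x ^ 2) k := by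
      rw [cfc_sub (fun x : ℝ => 1 - f x) (fun x : ℝ => (1 / 2) * x ^ 2) k (by fun_prop)
        (by fun_prop), cfc_sub (fun _ : ℝ => 1) f k (by fun_prop) (by fun_prop),
        cfc_const_mul (1 / 2 : ℝ) (fun x : ℝ => x ^ 2) k (by fun_prop), hkk]
      congr 2
      exact (cfc_one ℝ k).symm
    rw [h1]
    apply norm_cfc_le (by positivity)
    intro x hx
    have h2 := hspec x hx
    have h3 : x ^ 2 ≤ ρ ^ 2 := by
      rw [← sq_abs]
      have := abs_nonneg x
      nlinarith
    have h4 : x ^ 2 ≤ 1 := by nlinarith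
    have h5 : x ^ 4 ≤ ρ ^ 4 := by
      have : x ^ 4 = (x ^ 2) ^ 2 := by ring
      rw [this]
      have : ρ ^ 4 = (ρ ^ 2) ^ 2 := by ring
      rw [this]
      have := sq_nonneg x
      nlinarith
    have h6 : 0 ≤ 1 - x ^ 2 := by linarith
    have h7 : √(1 - x ^ 2) ≤ 1 - x ^ 2 / 2 := by
      rw [Real.sqrt_le_left (by linarith)]
      nlinarith [sq_nonneg (x ^ 2)]
    have h8 : 1 - x ^ 2 / 2 - x ^ 4 ≤ √(1 - x ^ 2) := by
      by_cases hneg : 0 ≤ 1 - x ^ 2 / 2 - x ^ 4
      · apply Real.le_sqrt_of_sq_le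
        nlinarith [sq_nonneg x, sq_nonneg (x ^ 2), mul_nonneg (sq_nonneg x) h6,
          mul_nonneg (sq_nonneg (x ^ 2)) h6, mul_nonneg (sq_nonneg (x ^ 2)) (sq_nonneg x)]
      · exact (not_le.mp hneg).le.trans (Real.sqrt_nonneg _)
    rw [Real.norm_eq_abs, abs_le]
    show -ρ ^ 4 ≤ 1 - √(1 - x ^ 2) - 1 / 2 * x ^ 2 ∧ 1 - √(1 - x ^ 2) - 1 / 2 * x ^ 2 ≤ ρ ^ 4
    constructor
    · have : 0 ≤ ρ ^ 4 := by positivity
      linarith
    · linarith

omit [PartialOrder A] [StarOrderedRing A] in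
/-- `c + i k` is unitary -/
theorem vara_unitary (c k : A) (hc : IsSelfAdjoint c) (hk : IsSelfAdjoint k) (hck : Commute c k)
    (h1 : c * c + k * k = 1) : c + Complex.I • k ∈ unitary A := by
  have hs : star (c + Complex.I • k) = c - Complex.I • k := by
    rw [star_add, star_smul, hc.star_eq, hk.star_eq, Complex.star_def, Complex.conj_I, neg_smul,
      sub_eq_add_neg]
  have h2 : (c - Complex.I • k) * (c + Complex.I • k) = c * c + k * k := by
    simp only [sub_mul, mul_add, smul_mul_assoc, mul_smul_comm, smul_add, smul_sub, smul_smul,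
      Complex.I_mul_I, neg_smul, one_smul]
    rw [hck.eq]
    abel
  have h3 : (c + Complex.I • k) * (c - Complex.I • k) = c * c + k * k := by
    simp only [add_mul, mul_sub, smul_mul_assoc, mul_smul_comm, smul_add, smul_sub, smul_smul,
      Complex.I_mul_I, neg_smul, one_smul]
    rw [hck.eq]
    abel
  rw [Unitary.mem_iff, hs, h2, h3, h1]
  exact ⟨rfl, rfl⟩

omit [PartialOrder A] [StarOrderedRing A] in
theorem vara_two (c k P : A) (hc : IsSelfAdjoint c) (hk : IsSelfAdjoint k) :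
    (c + Complex.I • k) * P * star (c + Complex.I • k) +
      star (c + Complex.I • k) * P * star (star (c + Complex.I • k)) =
      (2 : ℝ) • (c * P * c + k * P * k) := by
  have hs : star (c + Complex.I • k) = c - Complex.I • k := by
    rw [star_add, star_smul, hc.star_eq, hk.star_eq, Complex.star_def, Complex.conj_I, neg_smul,
      sub_eq_add_neg]
  rw [star_star, hs, two_smul]
  simp only [add_mul, mul_add, sub_mul, mul_sub, smul_mul_assoc, mul_smul_comm, smul_smul,
    Complex.I_mul_I, neg_smul, one_smul, smul_sub, smul_add]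
  abel

omit [PartialOrder A] [StarOrderedRing A] in
theorem vara_help (x y q : A) : (2 : ℝ) • (x * q + y * q) = ((2 : ℝ) • (x + y)) * q := by
  rw [smul_mul_assoc, add_mul]

theorem vara_norm_le {P : A} (h0 : 0 ≤ P) (h1 : P ≤ 1) : ‖P‖ ≤ 1 := by
  rw [CStarAlgebra.norm_le_one_iff_of_nonneg P h0]
  exact h1

omit [PartialOrder A] [StarOrderedRing A] in
theorem vara_mul3 (a b c : A) (x y z : ℝ) (hx : ‖a‖ ≤ x) (hy : ‖b‖ ≤ y) (hz : ‖c‖ ≤ z) :
    ‖a * b * c‖ ≤ x * y * z := by
  have hx0 := (norm_nonneg a).trans hx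
  have hy0 := (norm_nonneg b).trans hy
  refine (norm_mul_le _ _).trans ?_
  refine mul_le_mul ((norm_mul_le _ _).trans (mul_le_mul hx hy (norm_nonneg _) hx0)) hz
    (norm_nonneg _) (by positivity)

/-- estimate of one term -/
theorem vara_term {t : A → ℝ} (ht : IsTr t) (P Q h c : A) (hP : ‖P‖ ≤ 1) (hQ : ‖Q‖ ≤ 1)
    (hh : ‖h‖ ≤ 2) (s : ℝ) (hs0 : 0 < s) (hs1 : s ≤ 1 / 2)
    (hr : ‖1 - c - (1 / 2 : ℝ) • ((s • h) * (s • h))‖ ≤ (2 * s) ^ 4) :
    s ^ 2 * (t (P * h * Q * h) - 1 / 2 * t ((P * Q + Q * P) * (h * h))) - 68 * s ^ 4 ≤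
      t (c * P * c * Q) + t ((s • h) * P * (s • h) * Q) - t (P * Q) := by
  set k := s • h with hk
  set r := 1 - c - (1 / 2 : ℝ) • (k * k) with hrdef
  set e := 1 - c with he
  have hc : c = 1 - e := by rw [he]; abel
  have he2 : e = (1 / 2 : ℝ) • (k * k) + r := by rw [hrdef]; abel
  have hkn : ‖k‖ ≤ 2 * s := by
    rw [hk, norm_smul, Real.norm_of_nonneg hs0.le]
    nlinarith
  have hen : ‖e‖ ≤ 6 * s ^ 2 := by
    rw [he2]
    refine (norm_add_le _ _).trans ?_
    have h1 : ‖(1 / 2 : ℝ) • (k * k)‖ ≤ 2 * s ^ 2 := by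
      rw [norm_smul]
      have h2 : ‖k * k‖ ≤ (2 * s) * (2 * s) := (norm_mul_le _ _).trans
        (mul_le_mul hkn hkn (norm_nonneg _) (by positivity))
      have h3 : ‖(1 / 2 : ℝ)‖ = 1 / 2 := by norm_num
      rw [h3]
      nlinarith
    have h4 : s ^ 2 ≤ 1 / 4 := by nlinarith
    have h5 : (2 * s) ^ 4 = 16 * (s ^ 2 * s ^ 2) := by ring
    have h6 : 0 ≤ s ^ 2 := by positivity
    nlinarith
  -- expansion of the first term
  have e1 : t (c * P * c * Q) = t (P * Q) - t (e * P * Q) - t (P * e * Q) + t (e * P * e * Q) := by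
    have h1 : c * P * c * Q = P * Q - e * P * Q - P * e * Q + e * P * e * Q := by
      rw [hc]
      noncomm_ring
    rw [h1, ht.add, ht.sub, ht.sub]
  have e2 : t (e * P * Q) = 1 / 2 * t (k * k * P * Q) + t (r * P * Q) := by
    have h1 : e * P * Q = (1 / 2 : ℝ) • (k * k * P * Q) + r * P * Q := by
      rw [he2]
      simp only [add_mul, smul_mul_assoc]
    rw [h1, ht.add, ht.smul]
  have e3 : t (P * e * Q) = 1 / 2 * t (P * (k * k) * Q) + t (P * r * Q) := by
    have h1 : P * e * Q = (1 / 2 : ℝ) • (P * (k * k) * Q) + P * r * Q := by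
      rw [he2]
      simp only [mul_add, add_mul, smul_mul_assoc, mul_smul_comm]
    rw [h1, ht.add, ht.smul]
  have e4 : t (k * k * P * Q) + t (P * (k * k) * Q) = s ^ 2 * t ((P * Q + Q * P) * (h * h)) := by
    have h1 : t (k * k * P * Q) = t (P * Q * (k * k)) := by
      rw [mul_assoc (k * k), ht.comm]
    have h2 : t (P * (k * k) * Q) = t (Q * P * (k * k)) := by
      rw [ht.comm, mul_assoc]
    have h3 : k * k = (s ^ 2) • (h * h) := by
      rw [hk, smul_mul_smul_comm, sq]
    rw [h1, h2, ← ht.add, ← add_mul, h3, mul_smul_comm, ht.smul]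
  have e5 : t (k * P * k * Q) = s ^ 2 * t (P * h * Q * h) := by
    have h1 : k * P * k * Q = (s ^ 2) • (h * (P * h * Q)) := by
      rw [hk]
      simp only [smul_mul_assoc, mul_smul_comm, smul_smul, mul_assoc]
      rw [sq]
    rw [h1, ht.smul, ht.comm]
  have b1 : |t (r * P * Q)| ≤ 16 * s ^ 4 := by
    refine (ht.abs_le_norm _).trans ((vara_mul3 r P Q _ _ _ hr hP hQ).trans (le_of_eq ?_))
    ring
  have b2 : |t (P * r * Q)| ≤ 16 * s ^ 4 := by
    refine (ht.abs_le_norm _).trans ((vara_mul3 P r Q _ _ _ hP hr hQ).trans (le_of_eq ?_))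
    ring
  have b3 : |t (e * P * e * Q)| ≤ 36 * s ^ 4 := by
    refine (ht.abs_le_norm _).trans ((norm_mul_le _ _).trans ?_)
    have h1 := vara_mul3 e P e _ _ _ hen hP hen
    have h2 : ‖e * P * e‖ * ‖Q‖ ≤ (6 * s ^ 2 * 1 * (6 * s ^ 2)) * 1 :=
      mul_le_mul h1 hQ (norm_nonneg _) (by positivity)
    refine h2.trans (le_of_eq ?_)
    ring
  have c1 := abs_le.mp b1
  have c2 := abs_le.mp b2
  have c3 := abs_le.mp b3
  rw [e1, e2, e3, e5]
  nlinarith [e4]

theorem VARA_proof : ST_VARA.{u} := by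
  intro A _ _ _ t ht J P Q hP hQ κ hκ
  have hnt := vara_nontrivial ht
  let F : A → ℝ := fun v => ∑ j, t (v * P j * star v * Q j)
  let s : ℝ := min (1 / 2) (κ / (272 * ((J : ℝ) + 1)))
  have hs0 : 0 < s := lt_min (by norm_num) (by positivity)
  have hs1 : s ≤ 1 / 2 := min_le_left _ _
  have hs2 : 136 * (J : ℝ) * s ^ 2 ≤ κ / 2 := by
    have h1 : s ≤ κ / (272 * ((J : ℝ) + 1)) := min_le_right _ _
    rw [le_div_iff₀ (by positivity)] at h1
    have hJ : (0 : ℝ) ≤ J := Nat.cast_nonneg J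
    have h2 : s ^ 2 ≤ s := by nlinarith
    nlinarith
  let κ' : ℝ := κ * s ^ 2 / 4
  have hκ' : 0 < κ' := by positivity
  -- the supremum
  have hbdd : BddAbove (F '' (unitary A : Set A)) := by
    refine ⟨J, ?_⟩
    rintro _ ⟨v, hv, rfl⟩
    have h1 : ∀ j, t (v * P j * star v * Q j) ≤ 1 := by
      intro j
      refine (le_abs_self _).trans ((ht.abs_le_norm _).trans ?_)
      have hvn : ‖v‖ ≤ 1 := (CStarRing.norm_of_mem_unitary hv).le
      have hvn' : ‖star v‖ ≤ 1 := by rw [norm_star]; exact hvn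
      have h2 := vara_mul3 v (P j) (star v) 1 1 1 hvn (vara_norm_le (hP j).1 (hP j).2) hvn'
      refine (norm_mul_le _ _).trans ?_
      have h3 := vara_norm_le (hQ j).1 (hQ j).2
      have h4 := norm_nonneg (Q j)
      nlinarith [norm_nonneg (v * P j * star v)]
    show ∑ j, t (v * P j * star v * Q j) ≤ J
    refine (Finset.sum_le_sum fun j _ => h1 j).trans (le_of_eq ?_)
    simp
  have hne : (F '' (unitary A : Set A)).Nonempty := ⟨_, 1, (unitary A).one_mem, rfl⟩
  obtain ⟨_, ⟨u, hu, rfl⟩, hlt⟩ := exists_lt_of_lt_csSup hne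
    (show sSup (F '' (unitary A : Set A)) - κ' < sSup (F '' (unitary A : Set A)) by linarith)
  have hmax : ∀ w ∈ unitary A, F w ≤ F u + κ' := by
    intro w hw
    have h1 := le_csSup hbdd ⟨w, hw, rfl⟩
    linarith
  refine ⟨u, hu, fun h hh hn => ?_⟩
  have hksa : IsSelfAdjoint (s • h) := by
    rw [IsSelfAdjoint, star_smul, hh.star_eq, star_trivial]
  have hkn : ‖s • h‖ ≤ 2 * s := by
    rw [norm_smul, Real.norm_of_nonneg hs0.le]
    nlinarith
  obtain ⟨c, hc, hck, hc1, hcr⟩ := vara_cos (s • h) hksa (2 * s) (by linarith) hkn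
  have hv := vara_unitary c (s • h) hc hksa hck hc1
  have hv' : star (c + Complex.I • (s • h)) ∈ unitary A := Unitary.star_mem hv
  have m1 := hmax _ ((unitary A).mul_mem hv hu)
  have m2 := hmax _ ((unitary A).mul_mem hv' hu)
  have hsum : F ((c + Complex.I • (s • h)) * u) + F (star (c + Complex.I • (s • h)) * u) =
      ∑ j, 2 * (t (c * (u * P j * star u) * c * Q j) +
        t ((s • h) * (u * P j * star u) * (s • h) * Q j)) := by
    show (∑ j, _) + (∑ j, _) = _
    rw [← Finset.sum_add_distrib]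
    refine Finset.sum_congr rfl fun j _ => ?_
    rw [← ht.add, ← ht.add, ← ht.smul]
    congr 1
    have h2 := vara_two c (s • h) (u * P j * star u) hc hksa
    have h3 : (2 : ℝ) • (c * (u * P j * star u) * c * Q j +
        (s • h) * (u * P j * star u) * (s • h) * Q j) =
        ((2 : ℝ) • (c * (u * P j * star u) * c + (s • h) * (u * P j * star u) * (s • h))) *
          Q j := vara_help _ _ _
    rw [h3, ← h2, ← add_mul]
    simp only [star_mul, mul_assoc]
  have hterm : ∀ j, s ^ 2 * (t ((u * P j * star u) * h * Q j * h) -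
      1 / 2 * t (((u * P j * star u) * Q j + Q j * (u * P j * star u)) * (h * h))) -
        68 * s ^ 4 ≤ t (c * (u * P j * star u) * c * Q j) +
          t ((s • h) * (u * P j * star u) * (s • h) * Q j) - t ((u * P j * star u) * Q j) := by
    intro j
    have hun : ‖u‖ ≤ 1 := (CStarRing.norm_of_mem_unitary hu).le
    have hun' : ‖star u‖ ≤ 1 := by rw [norm_star]; exact hun
    have h1 := vara_mul3 u (P j) (star u) 1 1 1 hun (vara_norm_le (hP j).1 (hP j).2) hun'
    rw [mul_one, mul_one] at h1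
    exact vara_term ht (u * P j * star u) (Q j) h c h1 (vara_norm_le (hQ j).1 (hQ j).2) hn s hs0
      hs1 hcr
  have hFu : F u = ∑ j, t ((u * P j * star u) * Q j) := rfl
  have h3 := Finset.sum_le_sum (s := Finset.univ) fun j _ => hterm j
  have h4 : ∑ j, (s ^ 2 * (t ((u * P j * star u) * h * Q j * h) -
      1 / 2 * t (((u * P j * star u) * Q j + Q j * (u * P j * star u)) * (h * h))) -
        68 * s ^ 4) = s ^ 2 / 2 * (∑ j, (2 * t ((u * P j * star u) * h * Q j * h)
        - t (((u * P j * star u) * Q j + Q j * (u * P j * star u)) * (h * h)))) -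
          J * (68 * s ^ 4) := by
    rw [Finset.sum_sub_distrib, Finset.mul_sum]
    congr 1
    · refine Finset.sum_congr rfl fun j _ => ?_
      ring
    · simp
  have h5 : ∑ j, (t (c * (u * P j * star u) * c * Q j) +
          t ((s • h) * (u * P j * star u) * (s • h) * Q j) - t ((u * P j * star u) * Q j)) =
      (F ((c + Complex.I • (s • h)) * u) + F (star (c + Complex.I • (s • h)) * u)) / 2 - F u := by
    rw [hsum, hFu, ← Finset.mul_sum, Finset.sum_sub_distrib]
    ring
  rw [h4, h5] at h3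
  have h6 : s ^ 2 / 2 * (∑ j, (2 * t ((u * P j * star u) * h * Q j * h)
        - t (((u * P j * star u) * Q j + Q j * (u * P j * star u)) * (h * h)))) ≤
      s ^ 2 / 2 * κ := by
    have h7 : κ' = κ * s ^ 2 / 4 := rfl
    have h8 : J * (68 * s ^ 4) ≤ κ * s ^ 2 / 4 := by
      have : J * (68 * s ^ 4) = (136 * (J : ℝ) * s ^ 2) * (s ^ 2 / 2) := by ring
      rw [this]
      have h9 : 0 ≤ s ^ 2 / 2 := by positivity
      nlinarith
    linarith
  exact le_of_mul_le_mul_left h6 (by positivity)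

end Pool.Agent.Helper81.FP
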