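import Pool.Agent.Helper44.FP.Stmts
import Pool.Agent.Helper44.FP.Lib

/-!
# Module VARC: uniqueness in the 2-norm from averaging
-/

namespace Pool.Agent.Helper81.FP

open Pool.Agent.Helper44.FP
open scoped Topology

universe u v

section functions

variable {X : Type v} [TopologicalSpace X] [CompactSpace X]

omit [CompactSpace X] in
/-- at each point at most one function of a disjoint family does not vanish -/
theorem varc_point {J : ℕ} (g : Fin J → C(X, ℝ)) (hd : ∀ i j, i ≠ j → g i * g j = 0) (x : X) :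
    (∀ j, g j x = 0) ∨ ∃ j0, ∀ j, j ≠ j0 → g j x = 0 := by
  by_cases h : ∃ j0, g j0 x ≠ 0
  · obtain ⟨j0, h0⟩ := h
    right
    refine ⟨j0, fun j hj => ?_⟩
    have h1 := congrArg (fun f : C(X, ℝ) => f x) (hd j j0 hj)
    have h2 : g j x * g j0 x = 0 := h1
    rcases mul_eq_zero.mp h2 with h3 | h3
    · exact h3
    · exact absurd h3 h0
  · left
    intro j
    by_contra hj
    exact h ⟨j, hj⟩

omit [CompactSpace X] in
theorem varc_sum_apply {J : ℕ} (g : Fin J → C(X, ℝ)) (x : X) : (∑ j, g j) x = ∑ j, g j x := by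
  rw [ContinuousMap.coe_sum, Finset.sum_apply]

omit [CompactSpace X] in
theorem varc_le_one {J : ℕ} (g : Fin J → C(X, ℝ)) (hg : ∀ j, 0 ≤ g j ∧ g j ≤ 1)
    (hd : ∀ i j, i ≠ j → g i * g j = 0) : ∑ j, g j ≤ 1 := by
  intro x
  show (∑ j, g j) x ≤ 1
  rw [varc_sum_apply]
  rcases varc_point g hd x with h | ⟨j0, h⟩
  · rw [Finset.sum_eq_zero fun j _ => h j]
    exact zero_le_one
  · rw [Finset.sum_eq_single j0 (fun j _ hj => h j hj) (fun h => absurd (Finset.mem_univ _) h)]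
    exact (hg j0).2 x

omit [CompactSpace X] in
theorem varc_defect {J : ℕ} (g : Fin J → C(X, ℝ)) (hd : ∀ i j, i ≠ j → g i * g j = 0) :
    ∑ j, (g j - g j * g j) ≤ 1 - ∑ j, g j := by
  intro x
  show (∑ j, (g j - g j * g j)) x ≤ 1 - (∑ j, g j) x
  rw [varc_sum_apply, varc_sum_apply]
  have e : ∀ j, (g j - g j * g j) x = g j x - g j x * g j x := fun j => rfl
  rcases varc_point g hd x with h | ⟨j0, h⟩
  · rw [Finset.sum_eq_zero fun j _ => by rw [e, h j]; ring,
      Finset.sum_eq_zero fun j _ => h j]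
    norm_num
  · rw [Finset.sum_eq_single j0 (fun j _ hj => by rw [e, h j hj]; ring)
      (fun h => absurd (Finset.mem_univ _) h),
      Finset.sum_eq_single j0 (fun j _ hj => h j hj) (fun h => absurd (Finset.mem_univ _) h), e]
    nlinarith [sq_nonneg (1 - g j0 x)]

theorem varc_approx {J : ℕ} (g : Fin J → C(X, ℝ)) (hg : ∀ j, 0 ≤ g j ∧ g j ≤ 1)
    (hd : ∀ i j, i ≠ j → g i * g j = 0) (f : C(X, ℝ)) (a : Fin J → ℝ) (M ε : ℝ)
    (hM : ‖f‖ ≤ M) (ha : ∀ j x, g j x ≠ 0 → |f x - a j| ≤ ε) :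
    (f - ∑ j, a j • g j) * (f - ∑ j, a j • g j) ≤
      (2 * M ^ 2) • (1 - ∑ j, g j) + (2 * ε ^ 2) • (1 : C(X, ℝ)) := by
  intro x
  show (f x - (∑ j, a j • g j) x) * (f x - (∑ j, a j • g j) x) ≤
    2 * M ^ 2 * (1 - (∑ j, g j) x) + 2 * ε ^ 2 * 1
  rw [varc_sum_apply, varc_sum_apply]
  have e : ∀ j, (a j • g j) x = a j * g j x := fun j => rfl
  have hfx : |f x| ≤ M := by
    have := f.norm_coe_le_norm x
    rw [Real.norm_eq_abs] at this
    exact this.trans hM
  have hfx2 : f x ^ 2 ≤ M ^ 2 := by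
    rw [← sq_abs]
    have := abs_nonneg (f x)
    nlinarith
  rcases varc_point g hd x with h | ⟨j0, h⟩
  · rw [Finset.sum_eq_zero fun j _ => by rw [e, h j]; ring,
      Finset.sum_eq_zero fun j _ => h j]
    nlinarith [sq_nonneg ε, sq_nonneg M]
  · rw [Finset.sum_eq_single j0 (fun j _ hj => by rw [e, h j hj]; ring)
      (fun h => absurd (Finset.mem_univ _) h),
      Finset.sum_eq_single j0 (fun j _ hj => h j hj) (fun h => absurd (Finset.mem_univ _) h), e]
    have hg0 : 0 ≤ g j0 x := (hg j0).1 x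
    have hg1 : g j0 x ≤ 1 := (hg j0).2 x
    have hdiff : (f x - a j0) ^ 2 * g j0 x ^ 2 ≤ ε ^ 2 := by
      by_cases h0 : g j0 x = 0
      · rw [h0]
        have := sq_nonneg ε
        simpa using this
      · have h1 := ha j0 x h0
        have h2 : (f x - a j0) ^ 2 ≤ ε ^ 2 := by
          rw [← sq_abs]
          have := abs_nonneg (f x - a j0)
          nlinarith
        have h3 : g j0 x ^ 2 ≤ 1 := by nlinarith
        have h4 := sq_nonneg (f x - a j0)
        have h5 := sq_nonneg (g j0 x)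
        nlinarith
    have h6 : f x ^ 2 * (1 - g j0 x) ^ 2 ≤ M ^ 2 * (1 - g j0 x) := by
      have h7 : (1 - g j0 x) ^ 2 ≤ 1 - g j0 x := by nlinarith
      have h8 : 0 ≤ 1 - g j0 x := by linarith
      calc f x ^ 2 * (1 - g j0 x) ^ 2 ≤ M ^ 2 * (1 - g j0 x) ^ 2 :=
            mul_le_mul_of_nonneg_right hfx2 (sq_nonneg _)
        _ ≤ M ^ 2 * (1 - g j0 x) := mul_le_mul_of_nonneg_left h7 (sq_nonneg _)
    have h9 : f x - a j0 * g j0 x = f x * (1 - g j0 x) + (f x - a j0) * g j0 x := by ring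
    have h10 : (f x - a j0 * g j0 x) * (f x - a j0 * g j0 x) ≤
        2 * (f x ^ 2 * (1 - g j0 x) ^ 2) + 2 * ((f x - a j0) ^ 2 * g j0 x ^ 2) := by
      rw [h9]
      nlinarith [sq_nonneg (f x * (1 - g j0 x) - (f x - a j0) * g j0 x)]
    linarith

omit [CompactSpace X] in
theorem varc_sq_le {J : ℕ} (g : Fin J → C(X, ℝ)) (hg : ∀ j, 0 ≤ g j ∧ g j ≤ 1)
    (hd : ∀ i j, i ≠ j → g i * g j = 0) (a : Fin J → ℝ) :
    (∑ j, a j • g j) * (∑ j, a j • g j) ≤ ∑ j, (a j ^ 2) • g j := by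
  intro x
  show (∑ j, a j • g j) x * (∑ j, a j • g j) x ≤ (∑ j, (a j ^ 2) • g j) x
  rw [varc_sum_apply, varc_sum_apply]
  have e : ∀ j, (a j • g j) x = a j * g j x := fun j => rfl
  have e' : ∀ j, ((a j ^ 2) • g j) x = a j ^ 2 * g j x := fun j => rfl
  rcases varc_point g hd x with h | ⟨j0, h⟩
  · rw [Finset.sum_eq_zero fun j _ => by rw [e, h j]; ring,
      Finset.sum_eq_zero fun j _ => by rw [e', h j]; ring]
    norm_num
  · rw [Finset.sum_eq_single j0 (fun j _ hj => by rw [e, h j hj]; ring)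
      (fun h => absurd (Finset.mem_univ _) h),
      Finset.sum_eq_single j0 (fun j _ hj => by rw [e', h j hj]; ring)
      (fun h => absurd (Finset.mem_univ _) h), e, e']
    have hg0 : 0 ≤ g j0 x := (hg j0).1 x
    have hg1 : g j0 x ≤ 1 := (hg j0).2 x
    have h1 : g j0 x * g j0 x ≤ g j0 x := by nlinarith
    have h2 := mul_le_mul_of_nonneg_left h1 (sq_nonneg (a j0))
    linarith

end functions

/-- numerical step -/
theorem varc_num (τ τ' p α β : ℝ) (hα : 0 < α) (hβ : 0 ≤ β) (hτ : 0 ≤ τ)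
    (hd : τ' ≤ τ) (h : p ^ 2 + τ' * τ' ≤ p * (τ + τ) + β ^ 2) :
    τ - p ≤ α * τ + (τ - τ') / (2 * α) + β := by
  have h1 : (τ - p) ^ 2 ≤ 2 * τ * (τ - τ') + β ^ 2 := by nlinarith
  have h2 : 0 ≤ (τ - τ') / (2 * α) := div_nonneg (by linarith) (by linarith)
  have h3 : 2 * τ * (τ - τ') ≤ (α * τ + (τ - τ') / (2 * α)) ^ 2 := by
    have h4 : α * τ * ((τ - τ') / (2 * α)) = τ * (τ - τ') / 2 := by
      field_simp
    nlinarith [sq_nonneg (α * τ - (τ - τ') / (2 * α))]
  have h5 : 0 ≤ α * τ := by positivity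
  apply le_of_sq_le_sq _ (by positivity)
  nlinarith [mul_nonneg (add_nonneg h5 h2) hβ]

theorem VARC_aux (hVARB : ST_VARB.{u}) (hCOMB : ST_COMB.{v}) : ST_VARC.{u, v} := by
  intro A _ _ _ t ht hMix X _ _ φ ψ hφψ F ε hε
  obtain ⟨μ, hμφ⟩ : ∃ μ : C(X, ℝ) → ℝ, ∀ f, μ f = t (φ f) := ⟨fun f => t (φ f), fun _ => rfl⟩
  have hμψ : ∀ f, μ f = t (ψ f) := fun f => by rw [hμφ, hφψ]
  have hμadd : ∀ f g, μ (f + g) = μ f + μ g := by
    intro f g
    rw [hμφ, hμφ, hμφ, map_add, ht.add]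
  have hμsmul : ∀ (r : ℝ) f, μ (r • f) = r * μ f := by
    intro r f
    rw [hμφ, hμφ, map_smul, ht.smul]
  have hμpos : ∀ f, 0 ≤ f → 0 ≤ μ f := fun f hf => by
    rw [hμφ]; exact ht.pos_of_nonneg (hom_nonneg φ hf)
  have hμone : μ 1 = 1 := by rw [hμφ, map_one, ht.one]
  have hμmono : ∀ f g, f ≤ g → μ f ≤ μ g := fun f g h => by
    rw [hμφ, hμφ]; exact ht.mono (hom_mono φ h)
  have hμsub : ∀ f g, μ (f - g) = μ f - μ g := by
    intro f g
    rw [hμφ, hμφ, hμφ, map_sub, ht.sub]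
  have hμsum : ∀ {J : ℕ} (f : Fin J → C(X, ℝ)), μ (∑ j, f j) = ∑ j, μ (f j) := by
    intro J f
    rw [hμφ, map_sum, ht.sum]
    exact Finset.sum_congr rfl fun j _ => (hμφ _).symm
  -- parameters
  obtain ⟨M, hM1, hMF⟩ : ∃ M : ℝ, 1 ≤ M ∧ ∀ f ∈ F, ‖f‖ ≤ M := by
    refine ⟨∑ f ∈ F, ‖f‖ + 1, ?_, fun f hf => ?_⟩
    · have : 0 ≤ ∑ f ∈ F, ‖f‖ := Finset.sum_nonneg fun f _ => norm_nonneg f
      linarith
    · have := Finset.single_le_sum (f := fun f => ‖f‖) (fun f _ => norm_nonneg f) hf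
      linarith
  obtain ⟨α, hα0, hα1, hαε⟩ : ∃ α : ℝ, 0 < α ∧ α ≤ 1 ∧ α * (48 * M ^ 2 + 12) ≤ ε := by
    refine ⟨min 1 (ε / (48 * M ^ 2 + 12)), lt_min one_pos (by positivity), min_le_left _ _, ?_⟩
    have h1 : min 1 (ε / (48 * M ^ 2 + 12)) ≤ ε / (48 * M ^ 2 + 12) := min_le_right _ _
    rwa [le_div_iff₀ (by positivity)] at h1
  obtain ⟨J, g, a, hg, hgd, hgμ, ha⟩ := hCOMB X μ hμadd hμsmul hμpos hμone F (α ^ 2)
    (by positivity)
  obtain ⟨β, hβ0, hβJ⟩ : ∃ β : ℝ, 0 < β ∧ (J : ℝ) * β ≤ α := by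
    refine ⟨α / ((J : ℝ) + 1), by positivity, ?_⟩
    rw [mul_div_assoc', div_le_iff₀ (by positivity)]
    nlinarith
  obtain ⟨u, hu, hV⟩ := hVARB A t ht hMix J (fun j => φ (g j)) (fun j => ψ (g j))
    (fun j => ⟨hom_nonneg φ (hg j).1, hom_le_one φ (hg j).2⟩)
    (fun j => ⟨hom_nonneg ψ (hg j).1, hom_le_one ψ (hg j).2⟩)
    (fun i j hij => by rw [← map_mul, hgd i j hij, map_zero])
    (fun i j hij => by rw [← map_mul, hgd i j hij, map_zero]) (β ^ 2) (by positivity)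
  obtain ⟨τ, hτ⟩ : ∃ τ : Fin J → ℝ, ∀ j, τ j = μ (g j) := ⟨fun j => μ (g j), fun _ => rfl⟩
  obtain ⟨τ', hτ'⟩ : ∃ τ' : Fin J → ℝ, ∀ j, τ' j = μ (g j * g j) :=
    ⟨fun j => μ (g j * g j), fun _ => rfl⟩
  obtain ⟨p, hp⟩ : ∃ p : Fin J → Fin J → ℝ, ∀ j k, p j k =
      t (u * φ (g j) * star u * ψ (g k)) :=
    ⟨fun j k => t (u * φ (g j) * star u * ψ (g k)), fun _ _ => rfl⟩
  have hτ0 : ∀ j, 0 ≤ τ j := fun j => by rw [hτ]; exact hμpos _ (hg j).1
  have hττ : ∀ j, τ' j ≤ τ j := by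
    intro j
    rw [hτ, hτ']
    apply hμmono
    intro x
    have h0 : 0 ≤ g j x := (hg j).1 x
    have h1 : g j x ≤ 1 := (hg j).2 x
    show g j x * g j x ≤ g j x
    nlinarith
  have hineq : ∀ j, τ j - p j j ≤ α * τ j + (τ j - τ' j) / (2 * α) + β := by
    intro j
    apply varc_num (τ j) (τ' j) (p j j) α β hα0 hβ0.le (hτ0 j) (hττ j)
    have h1 := hV j
    rw [← map_mul, ← map_mul, ← hμφ, ← hμψ, ← hμφ, ← hμψ, ← hτ, ← hτ', ← hp] at h1
    exact h1
  have hsumτ : ∑ j, τ j = μ (∑ j, g j) := by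
    rw [hμsum]
    exact Finset.sum_congr rfl fun j _ => hτ j
  have hs1 : ∑ j, τ j ≤ 1 := by
    rw [hsumτ, ← hμone]
    exact hμmono _ _ (varc_le_one g hg hgd)
  have hs2 : ∑ j, (τ j - τ' j) ≤ α ^ 2 := by
    have h1 := hμmono _ _ (varc_defect g hgd)
    rw [hμsum, hμsub, hμone] at h1
    have h2 : ∑ j, μ (g j - g j * g j) = ∑ j, (τ j - τ' j) :=
      Finset.sum_congr rfl fun j _ => by rw [hμsub, hτ, hτ']
    rw [h2] at h1
    linarith
  have hs : ∑ j, (τ j - p j j) ≤ 3 * α := by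
    have h1 := Finset.sum_le_sum (s := Finset.univ) fun j _ => hineq j
    have h2 : ∑ j, (α * τ j + (τ j - τ' j) / (2 * α) + β) =
        α * ∑ j, τ j + (∑ j, (τ j - τ' j)) / (2 * α) + J * β := by
      rw [Finset.sum_add_distrib, Finset.sum_add_distrib, Finset.mul_sum, Finset.sum_div,
        Finset.sum_const, Finset.card_univ, Fintype.card_fin, nsmul_eq_mul]
    rw [h2] at h1
    have h3 : (∑ j, (τ j - τ' j)) / (2 * α) ≤ α := by
      rw [div_le_iff₀ (by positivity)]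
      nlinarith
    have h4 : α * ∑ j, τ j ≤ α := by nlinarith
    linarith
  -- rows
  have hp0 : ∀ j k, 0 ≤ p j k := by
    intro j k
    rw [hp]
    have h1 := star_left_conjugate_nonneg (hom_nonneg φ (hg j).1) (star u)
    rw [star_star] at h1
    exact ht.mul_pos h1 (hom_nonneg ψ (hg k).1)
  have hrow : ∀ j, ∑ k, p j k ≤ τ j := by
    intro j
    have h1 := star_left_conjugate_nonneg (hom_nonneg φ (hg j).1) (star u)
    rw [star_star] at h1
    have h2 : 0 ≤ 1 - ψ (∑ k, g k) := sub_nonneg.mpr (hom_le_one ψ (varc_le_one g hg hgd))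
    have h3 := ht.mul_pos h1 h2
    rw [mul_sub, mul_one, ht.sub, ht.unitary_conj hu, map_sum, Finset.mul_sum, ht.sum] at h3
    rw [hτ, hμφ]
    have h4 : ∑ k, p j k = ∑ k, t (u * φ (g j) * star u * ψ (g k)) :=
      Finset.sum_congr rfl fun k _ => hp j k
    rw [h4]
    linarith
  have hrow' : ∀ j, ∑ k ∈ Finset.univ.erase j, p j k ≤ τ j - p j j := by
    intro j
    have h1 := hrow j
    rw [← Finset.add_sum_erase _ _ (Finset.mem_univ j)] at h1
    linarith
  have hdiag : ∀ j, 0 ≤ τ j - p j j := fun j =>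
    (Finset.sum_nonneg fun k _ => hp0 j k).trans (hrow' j)
  refine ⟨u, hu, fun f hf => ?_⟩
  obtain ⟨f', hf'⟩ : ∃ f' : C(X, ℝ), f' = ∑ j, a f j • g j := ⟨_, rfl⟩
  have haM : ∀ j, |a f j| ≤ M := fun j => ((ha f hf j).1).trans (hMF f hf)
  -- outer terms
  have hout : μ ((f - f') * (f - f')) ≤ 2 * M ^ 2 * α ^ 2 + 2 * (α ^ 2) ^ 2 := by
    have h1 := hμmono _ _ (varc_approx g hg hgd f (a f) M (α ^ 2) (hMF f hf)
      (fun j x => (ha f hf j).2 x))
    rw [← hf', hμadd, hμsmul, hμsmul, hμsub, hμone, mul_one] at h1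
    have h2 : 2 * M ^ 2 * (1 - μ (∑ j, g j)) ≤ 2 * M ^ 2 * α ^ 2 := by
      apply mul_le_mul_of_nonneg_left _ (by positivity)
      linarith
    linarith
  have hn2φ : n2 t (u * φ (f - f') * star u) ^ 2 ≤ 2 * M ^ 2 * α ^ 2 + 2 * (α ^ 2) ^ 2 := by
    rw [ht.n2_mul_unitary (Unitary.star_mem hu), ht.n2_unitary_mul hu, ht.n2_sq,
      (hom_isSelfAdjoint φ _).star_eq, ← map_mul, ← hμφ]
    exact hout
  have hn2ψ : n2 t (ψ (f - f')) ^ 2 ≤ 2 * M ^ 2 * α ^ 2 + 2 * (α ^ 2) ^ 2 := by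
    rw [ht.n2_sq, (hom_isSelfAdjoint ψ _).star_eq, ← map_mul, ← hμψ]
    exact hout
  -- middle term
  have hmid : n2 t (u * φ f' * star u - ψ f') ^ 2 ≤ 12 * M ^ 2 * α := by
    have hsa1 : IsSelfAdjoint (u * φ f' * star u) := by
      rw [IsSelfAdjoint, star_mul, star_mul, star_star, (hom_isSelfAdjoint φ _).star_eq,
        mul_assoc]
    have hsa2 := hom_isSelfAdjoint ψ f'
    have e1 : star (u * φ f' * star u - ψ f') * (u * φ f' * star u - ψ f') =
        (u * φ f' * star u) * (u * φ f' * star u) - (u * φ f' * star u) * ψ f' -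
          ψ f' * (u * φ f' * star u) + ψ f' * ψ f' := by
      rw [star_sub, hsa1.star_eq, hsa2.star_eq]
      noncomm_ring
    have e2 : (u * φ f' * star u) * (u * φ f' * star u) = u * φ (f' * f') * star u := by
      calc (u * φ f' * star u) * (u * φ f' * star u) =
            u * φ f' * (star u * u) * φ f' * star u := by simp only [mul_assoc]
        _ = _ := by
            rw [Unitary.star_mul_self_of_mem hu, mul_one, map_mul]
            simp only [mul_assoc]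
    have e3 : t (ψ f' * (u * φ f' * star u)) = t ((u * φ f' * star u) * ψ f') := ht.comm _ _
    rw [ht.n2_sq, e1, ht.add, ht.sub, ht.sub, e2, ht.unitary_conj hu, e3, ← map_mul ψ, ← hμφ,
      ← hμψ]
    have h1 : μ (f' * f') ≤ ∑ j, a f j ^ 2 * τ j := by
      have h2 := hμmono _ _ (varc_sq_le g hg hgd (a f))
      rw [← hf', hμsum] at h2
      refine h2.trans (le_of_eq ?_)
      exact Finset.sum_congr rfl fun j _ => by rw [hμsmul, hτ]
    have h3 : t ((u * φ f' * star u) * ψ f') = ∑ j, ∑ k, a f j * a f k * p j k := by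
      have h4 : (u * φ f' * star u) * ψ f' =
          ∑ j, ∑ k, (a f j * a f k) • (u * φ (g j) * star u * ψ (g k)) := by
        have a1 : u * φ f' * star u = ∑ j, a f j • (u * φ (g j) * star u) := by
          rw [hf', map_sum, Finset.mul_sum, Finset.sum_mul]
          refine Finset.sum_congr rfl fun j _ => ?_
          rw [map_smul, mul_smul_comm, smul_mul_assoc]
        have a2 : ψ f' = ∑ k, a f k • ψ (g k) := by
          rw [hf', map_sum]
          exact Finset.sum_congr rfl fun k _ => map_smul _ _ _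
        rw [a1, a2, Finset.sum_mul_sum]
        refine Finset.sum_congr rfl fun j _ => Finset.sum_congr rfl fun k _ => ?_
        rw [smul_mul_smul_comm]
      rw [h4, ht.sum]
      refine Finset.sum_congr rfl fun j _ => ?_
      rw [ht.sum]
      refine Finset.sum_congr rfl fun k _ => ?_
      rw [ht.smul, hp]
    have h5 : ∑ j, (a f j ^ 2 * p j j - M ^ 2 * (τ j - p j j)) ≤
        ∑ j, ∑ k, a f j * a f k * p j k := by
      refine Finset.sum_le_sum fun j _ => ?_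
      rw [← Finset.add_sum_erase _ _ (Finset.mem_univ j)]
      have h6 : -(M ^ 2 * ∑ k ∈ Finset.univ.erase j, p j k) ≤
          ∑ k ∈ Finset.univ.erase j, a f j * a f k * p j k := by
        rw [Finset.mul_sum, ← Finset.sum_neg_distrib]
        refine Finset.sum_le_sum fun k _ => ?_
        have h7 : |a f j * a f k| ≤ M ^ 2 := by
          rw [abs_mul, sq]
          exact mul_le_mul (haM j) (haM k) (abs_nonneg _) (by linarith)
        have h8 := (abs_le.mp h7).1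
        have h9 := mul_le_mul_of_nonneg_right h8 (hp0 j k)
        linarith
      have h10 := mul_le_mul_of_nonneg_left (hrow' j) (sq_nonneg M)
      nlinarith
    have h11 : ∑ j, a f j ^ 2 * τ j - ∑ j, (a f j ^ 2 * p j j - M ^ 2 * (τ j - p j j)) ≤
        2 * M ^ 2 * ∑ j, (τ j - p j j) := by
      rw [← Finset.sum_sub_distrib, Finset.mul_sum]
      refine Finset.sum_le_sum fun j _ => ?_
      have h12 : a f j ^ 2 ≤ M ^ 2 := by
        rw [← sq_abs]
        have := abs_nonneg (a f j)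
        have := haM j
        nlinarith
      have h13 := mul_le_mul_of_nonneg_right h12 (hdiag j)
      linarith
    have h14 := mul_le_mul_of_nonneg_left hs (by positivity : 0 ≤ 2 * M ^ 2)
    rw [h3]
    linarith
  -- conclusion
  have hdecomp : u * φ f * star u - ψ f =
      (u * φ (f - f') * star u + (u * φ f' * star u - ψ f')) - ψ (f - f') := by
    rw [map_sub, map_sub]
    noncomm_ring
  have htri : n2 t (u * φ f * star u - ψ f) ≤ n2 t (u * φ (f - f') * star u) +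
      n2 t (u * φ f' * star u - ψ f') + n2 t (ψ (f - f')) := by
    rw [hdecomp]
    exact (ht.n2_sub_le _ _).trans (add_le_add (ht.n2_add_le _ _) le_rfl)
  rw [← ht.n2_sq]
  have b0 := n2_nonneg t (u * φ f * star u - ψ f)
  have b1 := n2_nonneg t (u * φ (f - f') * star u)
  have b2 := n2_nonneg t (u * φ f' * star u - ψ f')
  have b3 := n2_nonneg t (ψ (f - f'))
  generalize n2 t (u * φ f * star u - ψ f) = N0 at *
  generalize n2 t (u * φ (f - f') * star u) = N1 at *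
  generalize n2 t (u * φ f' * star u - ψ f') = N2 at *
  generalize n2 t (ψ (f - f')) = N3 at *
  have h1 : N0 ^ 2 ≤ (N1 + N2 + N3) ^ 2 := by nlinarith
  have h2 : (N1 + N2 + N3) ^ 2 ≤ 3 * (N1 ^ 2 + N2 ^ 2 + N3 ^ 2) := by
    nlinarith [sq_nonneg (N1 - N2), sq_nonneg (N1 - N3), sq_nonneg (N2 - N3)]
  have h3 : α ^ 2 ≤ α := by nlinarith
  have h4 : (α ^ 2) ^ 2 ≤ α := by nlinarith [sq_nonneg α]
  have h5 : 2 * M ^ 2 * α ^ 2 ≤ 2 * M ^ 2 * α := mul_le_mul_of_nonneg_left h3 (by positivity)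
  nlinarith

end Pool.Agent.Helper81.FP
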