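import Pool.Agent.Helper44.FP.Stmts
import Pool.Agent.Helper44.FP.Lib

/-!
# Module EE: a small element carrying the difference of two homomorphisms
-/

namespace Pool.Agent.Helper81.FP

open Pool.Agent.Helper44.FP
open scoped Topology

universe u v

variable {A : Type u} [CStarAlgebra A] [PartialOrder A] [StarOrderedRing A]

theorem ee_e1 (a : A) (ha : 0 ≤ a) (s : ℝ) (hs : 0 < s) :
    ∃ e : A, 0 ≤ e ∧ e ≤ 1 ∧ e ≤ (s ^ 2)⁻¹ • a ∧
      ∀ c : A, c * star c ≤ a → ‖(1 - e) * c‖ ≤ s := by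
  have hδ : 0 < s ^ 2 := by positivity
  obtain ⟨δ, hδdef⟩ : ∃ δ, δ = s ^ 2 := ⟨_, rfl⟩
  rw [← hδdef] at hδ ⊢
  let h : ℝ → ℝ := fun r => |r| / (|r| + δ)
  have hden : ∀ r : ℝ, |r| + δ ≠ 0 := fun r => by positivity
  have hcont : Continuous h := by
    apply Continuous.div (by fun_prop) (by fun_prop) hden
  have hspec : ∀ r ∈ spectrum ℝ a, 0 ≤ r := fun r hr => spectrum_nonneg_of_nonneg ha hr
  have hasa : IsSelfAdjoint a := ha.isSelfAdjoint
  have h1e : 1 - cfc h a = cfc (fun r => 1 - h r) a := by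
    rw [cfc_sub (fun _ => (1 : ℝ)) h a (by fun_prop) hcont.continuousOn, cfc_const_one ℝ a]
  have hsandw : (1 - cfc h a) * a * (1 - cfc h a) =
      cfc (fun r => (1 - h r) * r * (1 - h r)) a := by
    rw [cfc_mul (fun r => (1 - h r) * r) (fun r => 1 - h r) a (by fun_prop) (by fun_prop),
      cfc_mul (fun r => 1 - h r) (fun r : ℝ => r) a (by fun_prop) (by fun_prop),
      cfc_id' ℝ a, ← h1e]
  have hnorm : ‖(1 - cfc h a) * a * (1 - cfc h a)‖ ≤ δ := by
    rw [hsandw]
    apply norm_cfc_le hδ.le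
    intro r hr
    have hr0 := hspec r hr
    have e1 : 1 - h r = δ / (r + δ) := by
      show 1 - |r| / (|r| + δ) = _
      rw [abs_of_nonneg hr0]
      field_simp
      ring
    rw [Real.norm_eq_abs, e1, abs_of_nonneg (by positivity)]
    rw [div_mul_eq_mul_div, div_mul_div_comm, div_le_iff₀ (by positivity)]
    nlinarith [mul_nonneg hδ.le (sq_nonneg r), mul_nonneg hδ.le (mul_nonneg hδ.le hr0),
      mul_nonneg hδ.le (mul_nonneg hδ.le hδ.le)]
  refine ⟨cfc h a, ?_, ?_, ?_, ?_⟩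
  · exact cfc_nonneg fun r hr => by positivity
  · apply cfc_le_one
    intro r hr
    show |r| / (|r| + δ) ≤ 1
    rw [div_le_one (by positivity)]
    linarith
  · rw [← cfc_const_mul_id δ⁻¹ a]
    refine cfc_mono (fun r hr => ?_) hcont.continuousOn (by fun_prop)
    have hr0 := hspec r hr
    show |r| / (|r| + δ) ≤ δ⁻¹ * r
    rw [abs_of_nonneg hr0, inv_mul_eq_div]
    apply div_le_div_of_nonneg_left hr0 hδ
    linarith
  · intro c hc
    have hsa : IsSelfAdjoint (1 - cfc h a) := by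
      rw [h1e]
      exact cfc_predicate _ a
    have h2 : ‖(1 - cfc h a) * c‖ * ‖(1 - cfc h a) * c‖ ≤ δ := by
      rw [← CStarRing.norm_self_mul_star, star_mul, hsa.star_eq]
      have h3 : (1 - cfc h a) * c * (star c * (1 - cfc h a)) =
          (1 - cfc h a) * (c * star c) * (1 - cfc h a) := by simp only [mul_assoc]
      rw [h3]
      refine le_trans ?_ hnorm
      have h4 := star_left_conjugate_le_conjugate hc (1 - cfc h a)
      rw [hsa.star_eq] at h4
      apply CStarAlgebra.norm_le_norm_of_nonneg_of_le _ h4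
      have h5 := star_left_conjugate_nonneg (mul_star_self_nonneg c) (1 - cfc h a)
      rwa [hsa.star_eq] at h5
    rw [hδdef] at h2
    nlinarith [norm_nonneg ((1 - cfc h a) * c)]

section hom

variable {X : Type v} [TopologicalSpace X] [CompactSpace X]

omit [PartialOrder A] [StarOrderedRing A] [CompactSpace X] in
theorem ee_sum_sq (φ : C(X, ℝ) →⋆ₐ[ℝ] A) {J : ℕ} (q : Fin J → C(X, ℝ))
    (hq1 : ∑ j, q j ^ 2 = 1) : ∑ j, φ (q j) * φ (q j) = 1 := by
  rw [← map_one φ, ← hq1, map_sum]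
  exact Finset.sum_congr rfl fun j _ => by rw [sq, map_mul]

theorem ee_norm_q (φ : C(X, ℝ) →⋆ₐ[ℝ] A) {q : C(X, ℝ)} (h : 0 ≤ q ∧ q ≤ 1) : ‖φ q‖ ≤ 1 := by
  apply hom_norm_le φ q zero_le_one
  intro x
  have h0 : 0 ≤ q x := h.1 x
  have h1 : q x ≤ 1 := h.2 x
  rw [abs_of_nonneg h0]
  exact h1

/-- `e` almost commutes with the image -/
theorem ee_comm (hROW : ST_ROW.{u}) (φ : C(X, ℝ) →⋆ₐ[ℝ] A) {J : ℕ} (q : Fin J → C(X, ℝ))
    (c : Fin J → ℝ) (hq1 : ∑ j, q j ^ 2 = 1) (f : C(X, ℝ)) (ω : ℝ) (hω : 0 ≤ ω)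
    (hosc : ∀ j z, q j z ≠ 0 → |f z - c j| ≤ ω) (e1 : A) (he0 : 0 ≤ e1) (he1 : e1 ≤ 1) :
    ‖(∑ j, φ (q j) * e1 * φ (q j)) * φ f - φ f * (∑ j, φ (q j) * e1 * φ (q j))‖ ≤ 2 * ω := by
  obtain ⟨e, he⟩ : ∃ e, e = ∑ j, φ (q j) * e1 * φ (q j) := ⟨_, rfl⟩
  rw [← he]
  have hsae1 : IsSelfAdjoint e1 := he0.isSelfAdjoint
  have hsaq : ∀ j, IsSelfAdjoint (φ (q j)) := fun j => hom_isSelfAdjoint φ _
  have hsaf : IsSelfAdjoint (φ f) := hom_isSelfAdjoint φ _
  have he1n : ‖e1‖ ≤ 1 := by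
    rw [CStarAlgebra.norm_le_one_iff_of_nonneg e1 he0]
    exact he1
  have key : ‖e * φ f - ∑ j, c j • (φ (q j) * e1 * φ (q j))‖ ≤ ω := by
    have h1 : e * φ f - ∑ j, c j • (φ (q j) * e1 * φ (q j)) =
        ∑ j, star (e1 * φ (q j)) * φ (q j * (f - algebraMap ℝ C(X, ℝ) (c j))) := by
      rw [he, Finset.sum_mul, ← Finset.sum_sub_distrib]
      refine Finset.sum_congr rfl fun j _ => ?_
      rw [star_mul, hsae1.star_eq, (hsaq j).star_eq, map_mul, map_sub, AlgHomClass.commutes,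
        Algebra.algebraMap_eq_smul_one, mul_sub, mul_sub, mul_smul_comm, mul_one,
        mul_smul_comm]
      simp only [mul_assoc]
    have h2 := hROW A J (fun j => e1 * φ (q j))
      (fun j => φ (q j * (f - algebraMap ℝ C(X, ℝ) (c j))))
    have h3 : ‖∑ j, star (e1 * φ (q j)) * (e1 * φ (q j))‖ ≤ 1 := by
      rw [CStarAlgebra.norm_le_one_iff_of_nonneg _
        (Finset.sum_nonneg fun j _ => star_mul_self_nonneg _), ← ee_sum_sq φ q hq1]
      refine Finset.sum_le_sum fun j _ => ?_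
      have h4 : e1 * e1 ≤ 1 := by
        rw [← CStarAlgebra.norm_le_one_iff_of_nonneg _ hsae1.mul_self_nonneg]
        refine (norm_mul_le _ _).trans ?_
        have := norm_nonneg e1
        nlinarith
      have h5 := star_left_conjugate_le_conjugate h4 (φ (q j))
      rw [(hsaq j).star_eq, mul_one] at h5
      have h6 : star (e1 * φ (q j)) * (e1 * φ (q j)) = φ (q j) * (e1 * e1) * φ (q j) := by
        rw [star_mul, hsae1.star_eq, (hsaq j).star_eq]
        simp only [mul_assoc]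
      rw [h6]
      exact h5
    have h7 : ‖∑ j, star (φ (q j * (f - algebraMap ℝ C(X, ℝ) (c j)))) *
        φ (q j * (f - algebraMap ℝ C(X, ℝ) (c j)))‖ ≤ ω ^ 2 := by
      have h8 : ∑ j, star (φ (q j * (f - algebraMap ℝ C(X, ℝ) (c j)))) *
          φ (q j * (f - algebraMap ℝ C(X, ℝ) (c j))) =
          φ (∑ j, (q j * (f - algebraMap ℝ C(X, ℝ) (c j))) *
            (q j * (f - algebraMap ℝ C(X, ℝ) (c j)))) := by
        rw [map_sum]
        refine Finset.sum_congr rfl fun j _ => ?_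
        rw [(hom_isSelfAdjoint φ _).star_eq, ← map_mul]
      rw [h8]
      apply hom_norm_le φ _ (by positivity)
      intro z
      have h9 : (∑ j, (q j * (f - algebraMap ℝ C(X, ℝ) (c j))) *
            (q j * (f - algebraMap ℝ C(X, ℝ) (c j)))) z =
          ∑ j, q j z ^ 2 * (f z - c j) ^ 2 := by
        rw [ContinuousMap.coe_sum, Finset.sum_apply]
        refine Finset.sum_congr rfl fun j _ => ?_
        show (q j z * (f z - c j)) * (q j z * (f z - c j)) = _
        ring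
      have h10 : ∑ j, q j z ^ 2 = 1 := by
        have h : (∑ j, q j ^ 2) z = 1 := by rw [hq1]; rfl
        rw [ContinuousMap.coe_sum, Finset.sum_apply] at h
        exact h
      rw [h9, abs_of_nonneg (Finset.sum_nonneg fun j _ => by positivity), ← one_mul (ω ^ 2),
        ← h10, Finset.sum_mul]
      refine Finset.sum_le_sum fun j _ => ?_
      by_cases h0 : q j z = 0
      · rw [h0]
        simp
      · have h11 := hosc j z h0
        have h12 : (f z - c j) ^ 2 ≤ ω ^ 2 := by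
          rw [← sq_abs]
          have := abs_nonneg (f z - c j)
          nlinarith
        exact mul_le_mul_of_nonneg_left h12 (sq_nonneg _)
    rw [h1]
    have h13 : ‖∑ j, star (e1 * φ (q j)) * φ (q j * (f - algebraMap ℝ C(X, ℝ) (c j)))‖ ^ 2 ≤
        ω ^ 2 := by
      refine h2.trans ?_
      have h14 := norm_nonneg (∑ j, star (e1 * φ (q j)) * (e1 * φ (q j)))
      have h15 := norm_nonneg (∑ j, star (φ (q j * (f - algebraMap ℝ C(X, ℝ) (c j)))) *
        φ (q j * (f - algebraMap ℝ C(X, ℝ) (c j))))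
      nlinarith
    exact le_of_sq_le_sq h13 hω
  have hsaE : star e = e := by
    rw [he, star_sum]
    refine Finset.sum_congr rfl fun j _ => ?_
    rw [star_mul, star_mul, (hsaq j).star_eq, hsae1.star_eq, mul_assoc]
  have hsaS : star (∑ j, c j • (φ (q j) * e1 * φ (q j))) =
      ∑ j, c j • (φ (q j) * e1 * φ (q j)) := by
    rw [star_sum]
    refine Finset.sum_congr rfl fun j _ => ?_
    rw [star_smul, star_trivial, star_mul, star_mul, (hsaq j).star_eq, hsae1.star_eq, mul_assoc]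
  have key' : ‖φ f * e - ∑ j, c j • (φ (q j) * e1 * φ (q j))‖ ≤ ω := by
    rw [← norm_star, star_sub, star_mul, hsaE, hsaS, hsaf.star_eq]
    exact key
  have h1 : e * φ f - φ f * e = (e * φ f - ∑ j, c j • (φ (q j) * e1 * φ (q j))) -
      (φ f * e - ∑ j, c j • (φ (q j) * e1 * φ (q j))) := by abel
  rw [h1]
  exact (norm_sub_le _ _).trans (by linarith)

omit [PartialOrder A] [StarOrderedRing A] [CompactSpace X] in
theorem ee_compl (φ : C(X, ℝ) →⋆ₐ[ℝ] A) {J : ℕ} (q : Fin J → C(X, ℝ))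
    (hq1 : ∑ j, q j ^ 2 = 1) (e1 : A) :
    1 - ∑ j, φ (q j) * e1 * φ (q j) = ∑ j, φ (q j) * (1 - e1) * φ (q j) := by
  conv_lhs => rw [← ee_sum_sq φ q hq1]
  rw [← Finset.sum_sub_distrib]
  refine Finset.sum_congr rfl fun j _ => ?_
  rw [mul_sub, sub_mul, mul_one]

omit [PartialOrder A] [StarOrderedRing A] in
theorem ee_sum_norm {J : ℕ} (f : Fin J → A) (s : ℝ) (h : ∀ j, ‖f j‖ ≤ s) :
    ‖∑ j, f j‖ ≤ J * s := by
  refine (norm_sum_le _ _).trans ?_
  refine (Finset.sum_le_sum fun j _ => h j).trans ?_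
  rw [Finset.sum_const, Finset.card_univ, Fintype.card_fin, nsmul_eq_mul]

end hom

/-- EE -/
theorem EE_aux (hROW : ST_ROW.{u}) (hPART : ST_PART.{v}) : ST_EE.{u, v} := by
  classical
  intro A _ _ _ X _ _ G θ hθ
  obtain ⟨J, q, x, hq, hq1, hosc⟩ := hPART X G (θ / 4) (by positivity)
  obtain ⟨M, hM⟩ : ∃ M : ℝ, M = ∑ f ∈ G, ‖f‖ := ⟨_, rfl⟩
  have hM0 : 0 ≤ M := by rw [hM]; exact Finset.sum_nonneg fun f _ => norm_nonneg f
  have hMf : ∀ f ∈ G, ‖f‖ ≤ M := fun f hf => by
    rw [hM]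
    exact Finset.single_le_sum (f := fun g : C(X, ℝ) => ‖g‖) (fun g _ => norm_nonneg g) hf
  have hJ0 : (0 : ℝ) ≤ J := Nat.cast_nonneg J
  have hg0 : (0 : ℝ) ≤ G.card := Nat.cast_nonneg _
  obtain ⟨s, hs⟩ : ∃ s : ℝ, s = θ / (2 * (J + 1) * (4 * M + 1)) := ⟨_, rfl⟩
  have hs0 : 0 < s := by rw [hs]; positivity
  have hsJ : s * (2 * (J + 1) * (4 * M + 1)) = θ := by
    rw [hs]
    field_simp
  obtain ⟨N, hN⟩ : ∃ N : ℝ, N = J + J * G.card + 1 := ⟨_, rfl⟩
  have hN0 : 0 < N := by rw [hN]; positivity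
  obtain ⟨η, hη⟩ : ∃ η : ℝ, η = θ * s ^ 2 / N := ⟨_, rfl⟩
  have hη0 : 0 < η := by rw [hη]; positivity
  have hηN : η * N = θ * s ^ 2 := by rw [hη]; field_simp
  refine ⟨Finset.univ.image q ∪ G, η, hη0, ?_⟩
  intro t ht φ ψ hH
  have hsaφ : ∀ f, star (φ f) = φ f := fun f => (hom_isSelfAdjoint φ f).star_eq
  have hsaψ : ∀ f, star (ψ f) = ψ f := fun f => (hom_isSelfAdjoint ψ f).star_eq
  -- the positive element `a`
  obtain ⟨c, hc⟩ : ∃ c : Fin J → A, ∀ j, c j = φ (q j) - ψ (q j) := ⟨_, fun j => rfl⟩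
  obtain ⟨d, hd⟩ : ∃ d : Fin J → C(X, ℝ) → A, ∀ j f, d j f = φ (q j) * (φ f - ψ f) :=
    ⟨_, fun j f => rfl⟩
  have hcs : ∀ j, star (c j) = c j := fun j => by rw [hc, star_sub, hsaφ, hsaψ]
  obtain ⟨a, ha⟩ : ∃ a : A, a = ∑ j, c j * star (c j) + ∑ j, ∑ f ∈ G, d j f * star (d j f) :=
    ⟨_, rfl⟩
  have hp1 : 0 ≤ ∑ j, c j * star (c j) := Finset.sum_nonneg fun j _ => mul_star_self_nonneg _
  have hp2 : ∀ j, 0 ≤ ∑ f ∈ G, d j f * star (d j f) := fun j =>
    Finset.sum_nonneg fun f _ => mul_star_self_nonneg _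
  have hp3 : 0 ≤ ∑ j, ∑ f ∈ G, d j f * star (d j f) := Finset.sum_nonneg fun j _ => hp2 j
  have ha0 : 0 ≤ a := by rw [ha]; exact add_nonneg hp1 hp3
  obtain ⟨e1, he0, he1, hea, hec⟩ := ee_e1 a ha0 s hs0
  have hcn : ∀ j, ‖(1 - e1) * c j‖ ≤ s := by
    intro j
    apply hec
    rw [ha]
    refine le_trans ?_ (le_add_of_nonneg_right hp3)
    exact Finset.single_le_sum (f := fun j => c j * star (c j))
      (fun j _ => mul_star_self_nonneg _) (Finset.mem_univ j)
  have hdn : ∀ j, ∀ f ∈ G, ‖(1 - e1) * d j f‖ ≤ s := by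
    intro j f hf
    apply hec
    rw [ha]
    refine le_trans ?_ (le_add_of_nonneg_left hp1)
    refine le_trans ?_ (Finset.single_le_sum (f := fun j => ∑ f ∈ G, d j f * star (d j f))
      (fun j _ => hp2 j) (Finset.mem_univ j))
    exact Finset.single_le_sum (f := fun f => d j f * star (d j f))
      (fun f _ => mul_star_self_nonneg _) hf
  have hsa1 : star (1 - e1) = 1 - e1 := by
    rw [star_sub, star_one, he0.isSelfAdjoint.star_eq]
  have hcn' : ∀ j, ‖c j * (1 - e1)‖ ≤ s := by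
    intro j
    have := hcn j
    rwa [← norm_star, star_mul, hcs, hsa1] at this
  -- the trace of `a`
  have hta : t a ≤ η * N := by
    rw [ha, ht.add, ht.sum, ht.sum]
    have h1 : ∀ j, t (c j * star (c j)) ≤ η := fun j => by
      rw [ht.comm, hc]
      exact hH _ (Finset.mem_union_left _ (Finset.mem_image_of_mem q (Finset.mem_univ j)))
    have h2 : ∀ j, t (∑ f ∈ G, d j f * star (d j f)) ≤ G.card * η := by
      intro j
      rw [ht.sum, ← nsmul_eq_mul]
      apply Finset.sum_le_card_nsmul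
      intro f hf
      rw [ht.comm]
      refine le_trans ?_ (hH f (Finset.mem_union_right _ hf))
      apply ht.mono
      have h3 : φ (q j) * φ (q j) ≤ 1 := by
        rw [← map_mul]
        apply hom_le_one
        intro z
        have h0 : 0 ≤ q j z := (hq j).1 z
        have h1 : q j z ≤ 1 := (hq j).2 z
        show q j z * q j z ≤ 1
        nlinarith
      have h4 := star_left_conjugate_le_conjugate h3 (φ f - ψ f)
      rw [mul_one] at h4
      rw [hd, star_mul, hsaφ]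
      calc star (φ f - ψ f) * φ (q j) * (φ (q j) * (φ f - ψ f)) =
          star (φ f - ψ f) * (φ (q j) * φ (q j)) * (φ f - ψ f) := by simp only [mul_assoc]
        _ ≤ _ := h4
    have h5 : ∑ j, t (c j * star (c j)) ≤ J * η := by
      refine (Finset.sum_le_sum fun j _ => h1 j).trans ?_
      rw [Finset.sum_const, Finset.card_univ, Fintype.card_fin, nsmul_eq_mul]
    have h6 : ∑ j, t (∑ f ∈ G, d j f * star (d j f)) ≤ J * (G.card * η) := by
      refine (Finset.sum_le_sum fun j _ => h2 j).trans ?_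
      rw [Finset.sum_const, Finset.card_univ, Fintype.card_fin, nsmul_eq_mul]
    rw [hN]
    nlinarith
  refine ⟨∑ j, φ (q j) * e1 * φ (q j), ?_, ?_, ?_, ?_⟩
  · refine Finset.sum_nonneg fun j _ => ?_
    have := star_left_conjugate_nonneg he0 (φ (q j))
    rwa [hsaφ] at this
  · rw [← sub_nonneg, ee_compl φ q hq1]
    refine Finset.sum_nonneg fun j _ => ?_
    have := star_left_conjugate_nonneg (sub_nonneg.mpr he1) (φ (q j))
    rwa [hsaφ] at this
  · have h1 : t (∑ j, φ (q j) * e1 * φ (q j)) = t e1 := by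
      rw [ht.sum]
      have h2 : ∀ j, t (φ (q j) * e1 * φ (q j)) = t (e1 * (φ (q j) * φ (q j))) := fun j => by
        rw [ht.cyc, mul_assoc]
      rw [Finset.sum_congr rfl fun j _ => h2 j, ← ht.sum, ← Finset.mul_sum, ee_sum_sq φ q hq1,
        mul_one]
    rw [h1]
    refine (ht.mono hea).trans ?_
    rw [ht.smul, inv_mul_le_iff₀ (by positivity)]
    linarith
  · intro f hf
    have hosc' : ∀ j z, q j z ≠ 0 → |f z - f (x j)| ≤ θ / 4 := fun j z h => hosc j f hf z h
    have hφ := ee_comm hROW φ q (fun j => f (x j)) hq1 f (θ / 4) (by positivity) hosc' e1 he0 he1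
    have hψ := ee_comm hROW ψ q (fun j => f (x j)) hq1 f (θ / 4) (by positivity) hosc' e1 he0 he1
    refine ⟨by linarith, ?_, ?_⟩
    · have hdiff : (∑ j, φ (q j) * e1 * φ (q j)) - ∑ j, ψ (q j) * e1 * ψ (q j) =
          -(∑ j, (c j * (1 - e1) * φ (q j) + ψ (q j) * ((1 - e1) * c j))) := by
        have h1 : (∑ j, φ (q j) * e1 * φ (q j)) - ∑ j, ψ (q j) * e1 * ψ (q j) =
            (1 - ∑ j, ψ (q j) * e1 * ψ (q j)) - (1 - ∑ j, φ (q j) * e1 * φ (q j)) := by abel
        rw [h1, ee_compl φ q hq1, ee_compl ψ q hq1, ← Finset.sum_sub_distrib,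
          ← Finset.sum_neg_distrib]
        refine Finset.sum_congr rfl fun j _ => ?_
        rw [hc]
        simp only [sub_mul, mul_sub, one_mul, mul_one, mul_assoc]
        abel
      have hdn2 : ‖(∑ j, φ (q j) * e1 * φ (q j)) - ∑ j, ψ (q j) * e1 * ψ (q j)‖ ≤ J * (2 * s) := by
        rw [hdiff, norm_neg]
        apply ee_sum_norm
        intro j
        refine (norm_add_le _ _).trans ?_
        have h1 := norm_mul_le (c j * (1 - e1)) (φ (q j))
        have h2 := norm_mul_le (ψ (q j)) ((1 - e1) * c j)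
        have h3 := ee_norm_q φ (hq j)
        have h4 := ee_norm_q ψ (hq j)
        have h5 := hcn j
        have h6 := hcn' j
        have h7 : ‖c j * (1 - e1)‖ * ‖φ (q j)‖ ≤ s * 1 :=
          mul_le_mul h6 h3 (norm_nonneg _) hs0.le
        have h8 : ‖ψ (q j)‖ * ‖(1 - e1) * c j‖ ≤ 1 * s :=
          mul_le_mul h4 h5 (norm_nonneg _) zero_le_one
        linarith
      obtain ⟨e, he⟩ : ∃ e, e = ∑ j, φ (q j) * e1 * φ (q j) := ⟨_, rfl⟩
      obtain ⟨e', he'⟩ : ∃ e', e' = ∑ j, ψ (q j) * e1 * ψ (q j) := ⟨_, rfl⟩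
      rw [← he, ← he'] at hdn2
      rw [← he'] at hψ
      rw [← he]
      have h1 : e * ψ f - ψ f * e = (e' * ψ f - ψ f * e') + ((e - e') * ψ f - ψ f * (e - e')) := by
        simp only [sub_mul, mul_sub]
        abel
      rw [h1]
      have h2 : ‖ψ f‖ ≤ M := (hom_norm_le' ψ f).trans (hMf f hf)
      have h3 : ‖(e - e') * ψ f - ψ f * (e - e')‖ ≤ 2 * (J * (2 * s) * M) := by
        refine (norm_sub_le _ _).trans ?_
        have h4 := norm_mul_le (e - e') (ψ f)
        have h5 := norm_mul_le (ψ f) (e - e')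
        have h6 : ‖e - e'‖ * ‖ψ f‖ ≤ J * (2 * s) * M :=
          mul_le_mul hdn2 h2 (norm_nonneg _) (by positivity)
        rw [mul_comm] at h5
        linarith
      have h7 : 2 * (J * (2 * s) * M) ≤ θ / 2 := by
        nlinarith [mul_nonneg hs0.le hM0, mul_nonneg hs0.le hJ0,
          mul_nonneg (mul_nonneg hs0.le hM0) hJ0]
      refine (norm_add_le _ _).trans ?_
      linarith
    · rw [ee_compl φ q hq1, Finset.sum_mul]
      have h1 : ‖∑ j, φ (q j) * (1 - e1) * φ (q j) * (φ f - ψ f)‖ ≤ J * s := by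
        apply ee_sum_norm
        intro j
        have h2 : φ (q j) * (1 - e1) * φ (q j) * (φ f - ψ f) = φ (q j) * ((1 - e1) * d j f) := by
          rw [hd]
          simp only [mul_assoc]
        rw [h2]
        have h3 := ee_norm_q φ (hq j)
        have h4 : ‖φ (q j)‖ * ‖(1 - e1) * d j f‖ ≤ 1 * s :=
          mul_le_mul h3 (hdn j f hf) (norm_nonneg _) zero_le_one
        have h5 := norm_mul_le (φ (q j)) ((1 - e1) * d j f)
        linarith
      refine h1.trans ?_
      nlinarith [mul_nonneg hs0.le hM0, mul_nonneg hs0.le hJ0,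
          mul_nonneg (mul_nonneg hs0.le hM0) hJ0]

end Pool.Agent.Helper81.FP
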