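import Pool.Agent.Helper44.FP.Stmts
import Pool.Agent.Helper44.FP.Lib

/-!
# Module ROW: Cauchy-Schwarz for finite sums
-/

namespace Pool.Agent.Helper81.FP

open Pool.Agent.Helper44.FP
open scoped Topology

universe u

variable {A : Type u} [CStarAlgebra A] [PartialOrder A] [StarOrderedRing A]

theorem row_main {J : ℕ} (a b : Fin J → A) (α : ℝ) (hα : 0 < α)
    (hG : ‖∑ i, star (a i) * a i‖ ≤ α) :
    ‖∑ i, star (a i) * b i‖ ^ 2 ≤ α * ‖∑ i, star (b i) * b i‖ := by
  obtain ⟨S, hS⟩ : ∃ S, S = ∑ i, star (a i) * b i := ⟨_, rfl⟩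
  obtain ⟨G, hGdef⟩ : ∃ G, G = ∑ i, star (a i) * a i := ⟨_, rfl⟩
  obtain ⟨B, hB⟩ : ∃ B, B = ∑ i, star (b i) * b i := ⟨_, rfl⟩
  rw [← hS, ← hB]
  rw [← hGdef] at hG
  have hSs : star S = ∑ i, star (b i) * a i := by
    rw [hS, star_sum]
    exact Finset.sum_congr rfl fun i _ => by rw [star_mul, star_star]
  have hG0 : 0 ≤ G := by
    rw [hGdef]
    exact Finset.sum_nonneg fun i _ => star_mul_self_nonneg (a i)
  have hG1 : G ≤ algebraMap ℝ A α :=
    (hG0.isSelfAdjoint.le_algebraMap_norm_self).trans (algebraMap_mono A hG)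
  have hSGS : star S * G * S ≤ α • (star S * S) := by
    have h1 := star_left_conjugate_le_conjugate hG1 S
    have h2 : star S * algebraMap ℝ A α * S = α • (star S * S) := by
      rw [Algebra.algebraMap_eq_smul_one, mul_smul_comm, mul_one, smul_mul_assoc]
    rwa [h2] at h1
  have hsum : 0 ≤ ∑ i, star (a i * (α⁻¹ • S) - b i) * (a i * (α⁻¹ • S) - b i) :=
    Finset.sum_nonneg fun i _ => star_mul_self_nonneg _
  have hexp : ∑ i, star (a i * (α⁻¹ • S) - b i) * (a i * (α⁻¹ • S) - b i) =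
      (α⁻¹ * α⁻¹) • (star S * G * S) - (2 * α⁻¹) • (star S * S) + B := by
    have h1 : ∀ i, star (a i * (α⁻¹ • S) - b i) * (a i * (α⁻¹ • S) - b i) =
        (α⁻¹ * α⁻¹) • (star S * (star (a i) * a i) * S) - α⁻¹ • (star S * (star (a i) * b i)) -
          α⁻¹ • ((star (b i) * a i) * S) + star (b i) * b i := by
      intro i
      rw [star_sub, star_mul, star_smul, star_trivial, sub_mul, mul_sub, mul_sub,
        smul_mul_assoc, smul_mul_assoc, mul_smul_comm, mul_smul_comm, smul_mul_assoc,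
        smul_smul, mul_smul_comm]
      simp only [mul_assoc]
      abel
    rw [Finset.sum_congr rfl fun i _ => h1 i, Finset.sum_add_distrib, Finset.sum_sub_distrib,
      Finset.sum_sub_distrib, ← Finset.smul_sum, ← Finset.smul_sum, ← Finset.smul_sum,
      ← Finset.sum_mul, ← Finset.mul_sum, ← Finset.mul_sum, ← Finset.sum_mul, ← hGdef, ← hS,
      ← hSs, ← hB, two_mul, add_smul]
    abel
  rw [hexp] at hsum
  have h3 : α⁻¹ • (star S * S) ≤ B := by
    have h4 : (α⁻¹ * α⁻¹) • (star S * G * S) ≤ (α⁻¹ * α⁻¹) • (α • (star S * S)) :=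
      smul_le_smul_of_nonneg_left hSGS (by positivity)
    have e4 : α⁻¹ * α⁻¹ * α = α⁻¹ := by
      field_simp
    rw [smul_smul, e4] at h4
    have h5 : 0 ≤ α⁻¹ • (star S * S) - (2 * α⁻¹) • (star S * S) + B :=
      hsum.trans (add_le_add (sub_le_sub_right h4 _) le_rfl)
    rw [two_mul, add_smul] at h5
    have h6 : α⁻¹ • (star S * S) - (α⁻¹ • (star S * S) + α⁻¹ • (star S * S)) + B =
        B - α⁻¹ • (star S * S) := by abel
    rw [h6] at h5
    exact sub_nonneg.mp h5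
  have h7 : 0 ≤ α⁻¹ • (star S * S) :=
    smul_nonneg (inv_pos.mpr hα).le (star_mul_self_nonneg S)
  have h8 := CStarAlgebra.norm_le_norm_of_nonneg_of_le h7 h3
  rw [norm_smul, CStarRing.norm_star_mul_self, Real.norm_of_nonneg (inv_pos.mpr hα).le,
    inv_mul_le_iff₀ hα] at h8
  rw [sq]
  exact h8

theorem ROW_proof : ST_ROW.{u} := by
  intro A _ _ _ J a b
  have h1 : ∀ ε : ℝ, 0 < ε → ‖∑ i, star (a i) * b i‖ ^ 2 ≤
      (‖∑ i, star (a i) * a i‖ + ε) * ‖∑ i, star (b i) * b i‖ := by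
    intro ε hε
    have h2 := norm_nonneg (∑ i, star (a i) * a i)
    exact row_main a b _ (by linarith) (by linarith)
  have h3 : Filter.Tendsto (fun ε : ℝ => (‖∑ i, star (a i) * a i‖ + ε) *
      ‖∑ i, star (b i) * b i‖) (𝓝[>] 0)
      (𝓝 ((‖∑ i, star (a i) * a i‖ + 0) * ‖∑ i, star (b i) * b i‖)) := by
    apply Filter.Tendsto.mono_left _ nhdsWithin_le_nhds
    exact Continuous.tendsto (by fun_prop) 0
  rw [add_zero] at h3
  exact ge_of_tendsto h3 (by
    filter_upwards [self_mem_nhdsWithin] with ε hε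
    exact h1 ε hε)

end Pool.Agent.Helper81.FP
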